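import Pool.Agent.H97.T4.S

/-!
# The images of a block from two images of the heights

`fi2_law`, `fi1_law`: the lower bounds of the images of one block of digits from the entropy of two
images of the heights given a condition `Z` which determines the digits above the block up to `L`.
-/

set_option autoImplicit false

namespace Pool.T4I

open Finset Real
open Pool.Agent.H49.Ent Pool.Agent.H32.Dense Pool.STK
open Pool.T4H (dg tp floor_gap)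

variable {Ω ζ υ : Type} [Fintype Ω]

/-- Integer vectors near each other given `W`. -/
theorem ch_near {q : Ω → ℝ} (hq : IsLaw q) {T : Type} {d : ℕ} (X : Ω → Fin d → ℤ) (W : Ω → T)
    {L : ℝ} (h : ∀ ω ω', 0 < q ω → 0 < q ω' → W ω = W ω' → ∀ l, |(X ω l : ℝ) - X ω' l| ≤ L) :
    CH q X W ≤ d * Real.log (2 * L + 1) := by
  refine (CH_le_vec hq.nonneg hq.sum_one X W (fun _ => L) ?_).trans (le_of_eq ?_)
  · intro w w' h1 h2 h3 l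
    have := h w w' h1 h2 h3 l
    push_cast
    exact this
  · rw [Ex_const hq.sum_one]

/-- A floor is near its argument. -/
theorem fl_gap (a : ℝ) : |(⌊a⌋ : ℝ) - a| ≤ 1 := by
  rw [abs_le]
  constructor <;> linarith [Int.floor_le a, Int.lt_floor_add_one a]

/-- The digits of the heights: the value of `Y / 2 ^ s`. -/
theorem ht_gap {z : ℤ} {Y : ℝ} (hz : |(z : ℝ) - Y| ≤ 2) (s : ℕ) :
    |((z / 2 ^ s : ℤ) : ℝ) - Y / 2 ^ s| ≤ 3 := by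
  have h1 := floor_gap z s
  have h2 : |(z : ℝ) / 2 ^ s - Y / 2 ^ s| ≤ 2 := by
    rw [← sub_div, abs_div, abs_of_pos (by positivity : (0 : ℝ) < 2 ^ s)]
    refine (div_le_self (abs_nonneg _) (one_le_pow₀ (by norm_num))).trans hz
  rw [abs_le] at h1 h2 ⊢
  constructor <;> linarith [h1.1, h1.2, h2.1, h2.2]

omit [Fintype Ω] in
/-- The digits of a block and the digits above it. -/
theorem dg_add (z : Ω → Fin 3 → ℤ) (x i : ℕ) (ω : Ω) (l : Fin 3) :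
    ((z ω l / 2 ^ (i * x) : ℤ) : ℝ) = (dg z x i ω l : ℝ) + 2 ^ x * (tp z x i ω l : ℝ) := by
  unfold dg tp
  push_cast
  ring

/-- **The pair of images.** `Y`: the heights in their units; `ps`: the two places `≠ j`. -/
theorem fi2_law {q : Ω → ℝ} (hq : IsLaw q) {z : Ω → Fin 3 → ℤ} {Y : Ω → Fin 3 → ℝ}
    (hz : ∀ ω, 0 < q ω → ∀ l, |(z ω l : ℝ) - Y ω l| ≤ 2)
    {kcl : Ω → Fin 3 → ℤ} {ka : (Fin 3 → ℤ) → Fin 3 → ℝ} {j : Fin 3} (hka : ∀ k l, |ka k l| ≤ 1)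
    {x i : ℕ} {Yb : Ω → υ} {Z : Ω → ζ} (hk : Det q Z kcl) (hY : Det q Z Yb) {L : ℝ}
    (ht : ∀ ω ω', 0 < q ω → 0 < q ω' → Z ω = Z ω' → ∀ l, |(tp z x i ω l : ℝ) - tp z x i ω' l| ≤ L)
    {b : ℝ} {ps : Fin 2 → Fin 3}
    (hb : b ≤ CH q (fun ω (a : Fin 2) =>
      ⌊(Y ω (ps a) - ka (kcl ω) (ps a) * Y ω j) / 2 ^ (i * x)⌋) Z) :
    b - 3 * Real.log (2 * L + 1) - 2 * Real.log 33 ≤ CH q
      (fun ω (l : Fin 3) => ⌊((dg z x i ω l : ℝ) - ka (kcl ω) l * (dg z x i ω j : ℝ)) / 2 ^ 0⌋)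
      (fun ω => (kcl ω, (tp z x i ω, Yb ω))) := by
  have h0 := hq.nonneg
  obtain ⟨A, hA⟩ : ∃ A, A = fun ω (a : Fin 2) =>
      ⌊(Y ω (ps a) - ka (kcl ω) (ps a) * Y ω j) / 2 ^ (i * x)⌋ := ⟨_, rfl⟩
  obtain ⟨D, hD⟩ : ∃ D, D = fun ω (l : Fin 3) =>
    ⌊((dg z x i ω l : ℝ) - ka (kcl ω) l * (dg z x i ω j : ℝ)) / 2 ^ 0⌋ := ⟨_, rfl⟩
  rw [← hA] at hb
  rw [← hD]
  have g1 : CH q A Z ≤ CH q (tp z x i) Z + CH q A (fun ω => (tp z x i ω, Z ω)) :=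
    CH_le_add h0 A (tp z x i) Z
  have g2 : CH q (tp z x i) Z ≤ (3 : ℕ) * Real.log (2 * L + 1) := ch_near hq _ _ ht
  have g3 : CH q A (fun ω => (tp z x i ω, Z ω)) ≤ CH q D (fun ω => (tp z x i ω, Z ω)) +
      CH q A (fun ω => (D ω, (tp z x i ω, Z ω))) := CH_le_add h0 A D _
  have g4 : CH q A (fun ω => (D ω, (tp z x i ω, Z ω))) ≤ (2 : ℕ) * Real.log (2 * 16 + 1) := by
    refine ch_near hq A _ (L := 16) ?_
    intro ω ω' hω hω' h a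
    have e1 : D ω = D ω' := (Prod.ext_iff.mp h).1
    have e2 : tp z x i ω = tp z x i ω' := (Prod.ext_iff.mp (Prod.ext_iff.mp h).2).1
    have e3 : kcl ω = kcl ω' := hk ω ω' hω hω' (Prod.ext_iff.mp (Prod.ext_iff.mp h).2).2
    have key : ∀ ω, 0 < q ω → |(A ω a : ℝ) - (D ω (ps a) + 2 ^ x * (tp z x i ω (ps a) -
        ka (kcl ω) (ps a) * tp z x i ω j))| ≤ 8 := by
      intro ω hω
      have k1 := fl_gap ((Y ω (ps a) - ka (kcl ω) (ps a) * Y ω j) / 2 ^ (i * x))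
      have k2 := fl_gap (((dg z x i ω (ps a) : ℝ) -
        ka (kcl ω) (ps a) * (dg z x i ω j : ℝ)) / 2 ^ 0)
      have k3 := ht_gap (hz ω hω (ps a)) (i * x)
      have k4 := ht_gap (hz ω hω j) (i * x)
      rw [dg_add] at k3 k4
      have k5 : |ka (kcl ω) (ps a) * ((dg z x i ω j : ℝ) + 2 ^ x * (tp z x i ω j : ℝ) -
          Y ω j / 2 ^ (i * x))| ≤ 3 := by
        rw [abs_mul]
        have h1 := hka (kcl ω) (ps a)
        calc _ ≤ 1 * 3 := mul_le_mul h1 k4 (abs_nonneg _) zero_le_one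
          _ = 3 := by norm_num
      have a1 : (A ω a : ℝ) = (⌊(Y ω (ps a) - ka (kcl ω) (ps a) * Y ω j) / 2 ^ (i * x)⌋ : ℤ) := by
        rw [hA]
      have a2 : (D ω (ps a) : ℝ) = (⌊((dg z x i ω (ps a) : ℝ) -
          ka (kcl ω) (ps a) * (dg z x i ω j : ℝ)) / 2 ^ 0⌋ : ℤ) := by rw [hD]
      rw [a1, a2]
      rw [pow_zero, div_one] at k2 ⊢
      have a3 : (Y ω (ps a) - ka (kcl ω) (ps a) * Y ω j) / 2 ^ (i * x) =
        Y ω (ps a) / 2 ^ (i * x) - ka (kcl ω) (ps a) * (Y ω j / 2 ^ (i * x)) := by ring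
      rw [a3] at k1 ⊢
      rw [abs_le] at k1 k2 k3 k5 ⊢
      constructor <;> nlinarith [k1.1, k1.2, k2.1, k2.2, k3.1, k3.2, k5.1, k5.2]
    have h1 := key ω hω
    have h2 := key ω' hω'
    rw [← e1, ← e2, ← e3] at h2
    rw [abs_le] at h1 h2 ⊢
    constructor <;> linarith [h1.1, h1.2, h2.1, h2.2]
  have g5 : CH q D (fun ω => (tp z x i ω, Z ω)) ≤ CH q D (fun ω => (kcl ω, (tp z x i ω, Yb ω))) := by
    refine CH_mono_cond h0 fun ω ω' hω hω' h => ?_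
    have e1 := (Prod.ext_iff.mp h).1
    have e2 := (Prod.ext_iff.mp h).2
    exact Prod.ext (hk ω ω' hω hω' e2) (Prod.ext e1 (hY ω ω' hω hω' e2))
  norm_num at g2 g4
  linarith

/-- **One image.** `j`: the place with the coefficient 1; `l₁`, `l₂`: the other places. -/
theorem fi1_law {q : Ω → ℝ} (hq : IsLaw q) {z : Ω → Fin 3 → ℤ} {Y : Ω → Fin 3 → ℝ}
    (hz : ∀ ω, 0 < q ω → ∀ l, |(z ω l : ℝ) - Y ω l| ≤ 2)
    {kcl : Ω → Fin 3 → ℤ} {ka : (Fin 3 → ℤ) → Fin 3 → ℝ} {j l₁ l₂ : Fin 3}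
    (hka : ∀ k l, |ka k l| ≤ 1) (hkj : ∀ k, ka k j = 1)
    (hs : ∀ f : Fin 3 → ℝ, ∑ l, f l = f j + f l₁ + f l₂)
    {x i t : ℕ} (htx : t ≤ x) {Yb : Ω → υ} {Z : Ω → ζ} (hk : Det q Z kcl) (hY : Det q Z Yb) {L : ℝ}
    (ht : ∀ ω ω', 0 < q ω → 0 < q ω' → Z ω = Z ω' → ∀ l, |(tp z x i ω l : ℝ) - tp z x i ω' l| ≤ L)
    {b : ℝ} {A : Ω → Fin 2 → ℤ}
    (hA0 : ∀ ω, 0 < q ω → A ω 0 = ⌊(Y ω j + ka (kcl ω) l₂ * Y ω l₂) / 2 ^ (i * x + t)⌋)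
    (hA1 : ∀ ω, 0 < q ω → A ω 1 = ⌊Y ω l₁ / 2 ^ (i * x + t)⌋)
    (hb : b ≤ CH q A Z) :
    b - 3 * Real.log (2 * L + 1) - (((x : ℝ) - t) * Real.log 2 + Real.log 100) -
      Real.log 100 ≤ CH q
      (fun ω => ⌊(∑ l, ka (kcl ω) l * (dg z x i ω l : ℝ)) / 2 ^ t⌋)
      (fun ω => (kcl ω, (tp z x i ω, Yb ω))) := by
  have h0 := hq.nonneg
  obtain ⟨I, hI⟩ : ∃ I, I = fun ω => ⌊(∑ l, ka (kcl ω) l * (dg z x i ω l : ℝ)) / 2 ^ t⌋ :=
    ⟨_, rfl⟩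
  obtain ⟨A₀, hA₀⟩ : ∃ A₀, A₀ = fun ω => A ω 0 := ⟨_, rfl⟩
  obtain ⟨A₁, hA₁⟩ : ∃ A₁, A₁ = fun ω => A ω 1 := ⟨_, rfl⟩
  rw [← hI]
  obtain ⟨ZT, hZT⟩ : ∃ ZT, ZT = fun ω => (tp z x i ω, Z ω) := ⟨_, rfl⟩
  have p2 : ∀ s : ℕ, (0 : ℝ) < 2 ^ s := fun s => by positivity
  -- the values
  have v1 : ∀ ω, 0 < q ω → ∀ l, |((dg z x i ω l : ℝ) + 2 ^ x * (tp z x i ω l : ℝ)) / 2 ^ t -
      Y ω l / 2 ^ (i * x + t)| ≤ 3 := by
    intro ω hω l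
    have k3 := ht_gap (hz ω hω l) (i * x)
    rw [dg_add] at k3
    have e : ((dg z x i ω l : ℝ) + 2 ^ x * (tp z x i ω l : ℝ)) / 2 ^ t -
      Y ω l / 2 ^ (i * x + t) = ((dg z x i ω l : ℝ) + 2 ^ x * (tp z x i ω l : ℝ) -
        Y ω l / 2 ^ (i * x)) / 2 ^ t := by
      rw [pow_add]
      field_simp
    rw [e, abs_div, abs_of_pos (p2 t)]
    exact (div_le_self (abs_nonneg _) (one_le_pow₀ (by norm_num))).trans k3
  have g1 : CH q A Z ≤ CH q (tp z x i) Z + CH q A ZT := by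
    rw [hZT]
    exact CH_le_add h0 A (tp z x i) Z
  have g2 : CH q (tp z x i) Z ≤ (3 : ℕ) * Real.log (2 * L + 1) := ch_near hq _ _ ht
  have g3 : CH q A ZT ≤ CH q (fun ω => (A₀ ω, A₁ ω)) ZT := by
    refine CH_mono_left h0 fun ω ω' _ _ h => ?_
    have e1 := (Prod.ext_iff.mp (Prod.ext_iff.mp h).1).1
    have e2 := (Prod.ext_iff.mp (Prod.ext_iff.mp h).1).2
    rw [hA₀] at e1
    rw [hA₁] at e2
    funext a
    fin_cases a
    · exact e1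
    · exact e2
  have g4 : CH q (fun ω => (A₀ ω, A₁ ω)) ZT = CH q A₁ ZT + CH q A₀ (fun ω => (A₁ ω, ZT ω)) :=
    CH_chain h0 A₀ A₁ ZT
  have vec1 : ∀ {T : Type} (B : Ω → ℤ) (W : Ω → T) {L' : ℝ},
      (∀ ω ω', 0 < q ω → 0 < q ω' → W ω = W ω' → |(B ω : ℝ) - B ω'| ≤ L') →
      CH q B W ≤ Real.log (2 * L' + 1) := by
    intro T B W L' h
    have h1 := ch_near hq (fun ω (_ : Fin 1) => B ω) W (L := L') (fun ω ω' h1 h2 h3 _ =>
      h ω ω' h1 h2 h3)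
    have h2 : CH q B W ≤ CH q (fun ω (_ : Fin 1) => B ω) W := by
      refine CH_mono_left h0 fun ω ω' _ _ h => ?_
      have := (Prod.ext_iff.mp h).1
      exact congrFun this 0
    norm_num at h1
    linarith
  have g5 : CH q A₁ ZT ≤ ((x : ℝ) - t) * Real.log 2 + Real.log 100 := by
    refine (vec1 A₁ ZT (L' := 2 ^ (x - t) + 8) ?_).trans ?_
    · intro ω ω' hω hω' h
      rw [hZT] at h
      have e2 : tp z x i ω = tp z x i ω' := (Prod.ext_iff.mp h).1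
      have k1 := fl_gap (Y ω l₁ / 2 ^ (i * x + t))
      have k2 := fl_gap (Y ω' l₁ / 2 ^ (i * x + t))
      have k3 := v1 ω hω l₁
      have k4 := v1 ω' hω' l₁
      rw [← e2] at k4
      have d1 : (0 : ℝ) ≤ dg z x i ω l₁ := by exact_mod_cast Pool.T4H.dg_nn z x i ω l₁
      have d2 : (dg z x i ω l₁ : ℝ) ≤ 2 ^ x := by
        exact_mod_cast (Pool.T4H.dg_lt z x i ω l₁).le
      have d3 : (0 : ℝ) ≤ dg z x i ω' l₁ := by exact_mod_cast Pool.T4H.dg_nn z x i ω' l₁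
      have d4 : (dg z x i ω' l₁ : ℝ) ≤ 2 ^ x := by
        exact_mod_cast (Pool.T4H.dg_lt z x i ω' l₁).le
      have e5 : (2 : ℝ) ^ (x - t) = 2 ^ x / 2 ^ t := by
        rw [eq_div_iff (p2 t).ne', ← pow_add, Nat.sub_add_cancel htx]
      have d5 : (dg z x i ω l₁ : ℝ) / 2 ^ t ≤ 2 ^ (x - t) := by
        rw [e5]; exact div_le_div_of_nonneg_right d2 (p2 t).le
      have d6 : (dg z x i ω' l₁ : ℝ) / 2 ^ t ≤ 2 ^ (x - t) := by
        rw [e5]; exact div_le_div_of_nonneg_right d4 (p2 t).le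
      have d7 : 0 ≤ (dg z x i ω l₁ : ℝ) / 2 ^ t := div_nonneg d1 (p2 t).le
      have d8 : 0 ≤ (dg z x i ω' l₁ : ℝ) / 2 ^ t := div_nonneg d3 (p2 t).le
      rw [hA₁]
      show |((A ω 1 : ℤ) : ℝ) - (A ω' 1 : ℤ)| ≤ _
      rw [hA1 ω hω, hA1 ω' hω']
      rw [add_div] at k3 k4
      rw [abs_le] at k1 k2 k3 k4 ⊢
      constructor <;> linarith [k1.1, k1.2, k2.1, k2.2, k3.1, k3.2, k4.1, k4.2]
    · have e6 : ((x : ℝ) - t) * Real.log 2 + Real.log 100 = Real.log (2 ^ (x - t) * 100) := by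
        rw [Real.log_mul (p2 _).ne' (by norm_num), Real.log_pow, Nat.cast_sub htx]
      rw [e6]
      have h1 : (1 : ℝ) ≤ 2 ^ (x - t) := one_le_pow₀ (by norm_num)
      exact Real.log_le_log (by positivity) (by linarith)
  have g6 : CH q A₀ (fun ω => (A₁ ω, ZT ω)) ≤ CH q I (fun ω => (A₁ ω, ZT ω)) +
      CH q A₀ (fun ω => (I ω, (A₁ ω, ZT ω))) := CH_le_add h0 A₀ I _
  have g7 : CH q A₀ (fun ω => (I ω, (A₁ ω, ZT ω))) ≤ Real.log 100 := by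
    refine (vec1 A₀ _ (L' := 40) ?_).trans (Real.log_le_log (by norm_num) (by norm_num))
    intro ω ω' hω hω' h
    rw [hZT] at h
    have e1 : I ω = I ω' := (Prod.ext_iff.mp h).1
    have e1' : A ω 1 = A ω' 1 := by
      have := (Prod.ext_iff.mp (Prod.ext_iff.mp h).2).1
      rw [hA₁] at this
      exact this
    have e2 : tp z x i ω = tp z x i ω' :=
      (Prod.ext_iff.mp (Prod.ext_iff.mp (Prod.ext_iff.mp h).2).2).1
    have e3 : kcl ω = kcl ω' := hk ω ω' hω hω'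
      (Prod.ext_iff.mp (Prod.ext_iff.mp (Prod.ext_iff.mp h).2).2).2
    have key : ∀ ω, 0 < q ω → |(A ω 0 : ℝ) - (I ω - ka (kcl ω) l₁ * A ω 1 +
        (2 ^ x / 2 ^ t) * (tp z x i ω j + ka (kcl ω) l₁ * tp z x i ω l₁ +
          ka (kcl ω) l₂ * tp z x i ω l₂))| ≤ 20 := by
      intro ω hω
      have hx : ∀ l, |ka (kcl ω) l * (((dg z x i ω l : ℝ) + 2 ^ x * (tp z x i ω l : ℝ)) / 2 ^ t -
          Y ω l / 2 ^ (i * x + t))| ≤ 3 := by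
        intro l
        rw [abs_mul]
        calc _ ≤ 1 * 3 := mul_le_mul (hka _ l) (v1 ω hω l) (abs_nonneg _) zero_le_one
          _ = 3 := by norm_num
      have k1 := fl_gap ((Y ω j + ka (kcl ω) l₂ * Y ω l₂) / 2 ^ (i * x + t))
      have k2 := fl_gap (Y ω l₁ / 2 ^ (i * x + t))
      have k2' : |ka (kcl ω) l₁ * ((⌊Y ω l₁ / 2 ^ (i * x + t)⌋ : ℝ) - Y ω l₁ / 2 ^ (i * x + t))|
          ≤ 1 := by
        rw [abs_mul]
        exact mul_le_one₀ (hka _ _) (abs_nonneg _) k2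
      have k3 := fl_gap ((∑ l, ka (kcl ω) l * (dg z x i ω l : ℝ)) / 2 ^ t)
      have k4 := hx j
      have k5 := hx l₁
      have k6 := hx l₂
      rw [hkj, one_mul] at k4
      have eI : (I ω : ℝ) = (⌊(∑ l, ka (kcl ω) l * (dg z x i ω l : ℝ)) / 2 ^ t⌋ : ℤ) := by rw [hI]
      rw [hA0 ω hω, hA1 ω hω, eI]
      rw [hs, hkj, one_mul] at k3 ⊢
      have e7 : (Y ω j + ka (kcl ω) l₂ * Y ω l₂) / 2 ^ (i * x + t) =
        Y ω j / 2 ^ (i * x + t) + ka (kcl ω) l₂ * (Y ω l₂ / 2 ^ (i * x + t)) := by ring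
      have e8 : ((dg z x i ω j : ℝ) + ka (kcl ω) l₁ * (dg z x i ω l₁ : ℝ) +
        ka (kcl ω) l₂ * (dg z x i ω l₂ : ℝ)) / 2 ^ t = (dg z x i ω j : ℝ) / 2 ^ t +
          ka (kcl ω) l₁ * ((dg z x i ω l₁ : ℝ) / 2 ^ t) +
          ka (kcl ω) l₂ * ((dg z x i ω l₂ : ℝ) / 2 ^ t) := by ring
      have e9 : ∀ l, ((dg z x i ω l : ℝ) + 2 ^ x * (tp z x i ω l : ℝ)) / 2 ^ t =
        (dg z x i ω l : ℝ) / 2 ^ t + (2 ^ x / 2 ^ t) * tp z x i ω l := fun l => by ring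
      rw [e9] at k4 k5 k6
      rw [e7] at k1 ⊢
      rw [e8] at k3 ⊢
      obtain ⟨n0, hn0⟩ : ∃ n0 : ℝ, n0 = (⌊Y ω j / 2 ^ (i * x + t) +
        ka (kcl ω) l₂ * (Y ω l₂ / 2 ^ (i * x + t))⌋ : ℤ) := ⟨_, rfl⟩
      obtain ⟨n1, hn1⟩ : ∃ n1 : ℝ, n1 = (⌊Y ω l₁ / 2 ^ (i * x + t)⌋ : ℤ) := ⟨_, rfl⟩
      obtain ⟨n2, hn2⟩ : ∃ n2 : ℝ, n2 = (⌊(dg z x i ω j : ℝ) / 2 ^ t +
          ka (kcl ω) l₁ * ((dg z x i ω l₁ : ℝ) / 2 ^ t) +
          ka (kcl ω) l₂ * ((dg z x i ω l₂ : ℝ) / 2 ^ t)⌋ : ℤ) := ⟨_, rfl⟩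
      rw [← hn0] at k1 ⊢
      rw [← hn1] at k2' ⊢
      rw [← hn2] at k3 ⊢
      generalize Y ω j / 2 ^ (i * x + t) = yj at k1 k4 ⊢
      generalize Y ω l₁ / 2 ^ (i * x + t) = y1 at k2' k5 ⊢
      generalize Y ω l₂ / 2 ^ (i * x + t) = y2 at k1 k6 ⊢
      generalize (dg z x i ω j : ℝ) / 2 ^ t = dj at k3 k4 ⊢
      generalize (dg z x i ω l₁ : ℝ) / 2 ^ t = d1 at k3 k5 ⊢
      generalize (dg z x i ω l₂ : ℝ) / 2 ^ t = d2 at k3 k6 ⊢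
      generalize (2 : ℝ) ^ x / 2 ^ t = cc at k4 k5 k6 ⊢
      generalize ka (kcl ω) l₁ = a1 at k2' k3 k5 ⊢
      generalize ka (kcl ω) l₂ = a2 at k1 k3 k6 ⊢
      have e10 : n0 - (n2 - a1 * n1 + cc * (tp z x i ω j + a1 * tp z x i ω l₁ +
          a2 * tp z x i ω l₂)) = (n0 - (yj + a2 * y2)) - (n2 - (dj + a1 * d1 + a2 * d2)) +
          a1 * (n1 - y1) - (dj + cc * tp z x i ω j - yj) -
          a1 * (d1 + cc * tp z x i ω l₁ - y1) - a2 * (d2 + cc * tp z x i ω l₂ - y2) := by ring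
      rw [e10]
      rw [abs_le] at k1 k2' k3 k4 k5 k6 ⊢
      constructor <;> linarith [k1.1, k1.2, k2'.1, k2'.2, k3.1, k3.2, k4.1, k4.2, k5.1, k5.2,
        k6.1, k6.2]
    have h1 := key ω hω
    have h2 := key ω' hω'
    rw [← e1, ← e2, ← e3, ← e1'] at h2
    rw [hA₀]
    show |((A ω 0 : ℤ) : ℝ) - (A ω' 0 : ℤ)| ≤ 40
    rw [abs_le] at h1 h2 ⊢
    constructor <;> linarith [h1.1, h1.2, h2.1, h2.2]
  have g8 : CH q I (fun ω => (A₁ ω, ZT ω)) ≤ CH q I (fun ω => (kcl ω, (tp z x i ω, Yb ω))) := by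
    refine CH_mono_cond h0 fun ω ω' hω hω' h => ?_
    rw [hZT] at h
    have e1 := (Prod.ext_iff.mp (Prod.ext_iff.mp h).2).1
    have e2 := (Prod.ext_iff.mp (Prod.ext_iff.mp h).2).2
    exact Prod.ext (hk ω ω' hω hω' e2) (Prod.ext e1 (hY ω ω' hω hω' e2))
  norm_num at g2
  linarith

/-- **One image**, from the entropy of the same image of the heights. -/
theorem fi1s_law {q : Ω → ℝ} (hq : IsLaw q) {z : Ω → Fin 3 → ℤ} {Y : Ω → Fin 3 → ℝ}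
    (hz : ∀ ω, 0 < q ω → ∀ l, |(z ω l : ℝ) - Y ω l| ≤ 2)
    {kcl : Ω → Fin 3 → ℤ} {ka : (Fin 3 → ℤ) → Fin 3 → ℝ} (hka : ∀ k l, |ka k l| ≤ 1)
    {x i t : ℕ} {Yb : Ω → υ} {Z : Ω → ζ} (hk : Det q Z kcl) (hY : Det q Z Yb) {L : ℝ}
    (ht : ∀ ω ω', 0 < q ω → 0 < q ω' → Z ω = Z ω' → ∀ l, |(tp z x i ω l : ℝ) - tp z x i ω' l| ≤ L)
    {b : ℝ}
    (hb : b ≤ CH q (fun ω => ⌊(∑ l, ka (kcl ω) l * Y ω l) / 2 ^ (i * x + t)⌋) Z) :
    b - 3 * Real.log (2 * L + 1) - Real.log 100 ≤ CH q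
      (fun ω => ⌊(∑ l, ka (kcl ω) l * (dg z x i ω l : ℝ)) / 2 ^ t⌋)
      (fun ω => (kcl ω, (tp z x i ω, Yb ω))) := by
  have h0 := hq.nonneg
  obtain ⟨I, hI⟩ : ∃ I, I = fun ω => ⌊(∑ l, ka (kcl ω) l * (dg z x i ω l : ℝ)) / 2 ^ t⌋ :=
    ⟨_, rfl⟩
  obtain ⟨A, hA⟩ : ∃ A, A = fun ω => ⌊(∑ l, ka (kcl ω) l * Y ω l) / 2 ^ (i * x + t)⌋ := ⟨_, rfl⟩
  rw [← hA] at hb
  rw [← hI]
  obtain ⟨ZT, hZT⟩ : ∃ ZT, ZT = fun ω => (tp z x i ω, Z ω) := ⟨_, rfl⟩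
  have p2 : ∀ s : ℕ, (0 : ℝ) < 2 ^ s := fun s => by positivity
  have v1 : ∀ ω, 0 < q ω → ∀ l, |((dg z x i ω l : ℝ) + 2 ^ x * (tp z x i ω l : ℝ)) / 2 ^ t -
      Y ω l / 2 ^ (i * x + t)| ≤ 3 := by
    intro ω hω l
    have k3 := ht_gap (hz ω hω l) (i * x)
    rw [dg_add] at k3
    have e : ((dg z x i ω l : ℝ) + 2 ^ x * (tp z x i ω l : ℝ)) / 2 ^ t -
      Y ω l / 2 ^ (i * x + t) = ((dg z x i ω l : ℝ) + 2 ^ x * (tp z x i ω l : ℝ) -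
        Y ω l / 2 ^ (i * x)) / 2 ^ t := by
      rw [pow_add]
      field_simp
    rw [e, abs_div, abs_of_pos (p2 t)]
    exact (div_le_self (abs_nonneg _) (one_le_pow₀ (by norm_num))).trans k3
  have g1 : CH q A Z ≤ CH q (tp z x i) Z + CH q A ZT := by
    rw [hZT]
    exact CH_le_add h0 A (tp z x i) Z
  have g2 : CH q (tp z x i) Z ≤ (3 : ℕ) * Real.log (2 * L + 1) := ch_near hq _ _ ht
  have g6 : CH q A ZT ≤ CH q I ZT + CH q A (fun ω => (I ω, ZT ω)) := CH_le_add h0 A I _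
  have g7 : CH q A (fun ω => (I ω, ZT ω)) ≤ Real.log 100 := by
    have h1 := ch_near hq (fun ω (_ : Fin 1) => A ω) (fun ω => (I ω, ZT ω)) (L := 30) ?_
    · have h2 : CH q A (fun ω => (I ω, ZT ω)) ≤
          CH q (fun ω (_ : Fin 1) => A ω) (fun ω => (I ω, ZT ω)) := by
        refine CH_mono_left h0 fun ω ω' _ _ h => ?_
        have := (Prod.ext_iff.mp h).1
        exact congrFun this 0
      have h3 : Real.log (2 * 30 + 1) ≤ Real.log 100 :=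
        Real.log_le_log (by norm_num) (by norm_num)
      norm_num at h1 h3
      linarith
    intro ω ω' hω hω' h _
    rw [hZT] at h
    have e1 : I ω = I ω' := (Prod.ext_iff.mp h).1
    have e2 : tp z x i ω = tp z x i ω' := (Prod.ext_iff.mp (Prod.ext_iff.mp h).2).1
    have e3 : kcl ω = kcl ω' := hk ω ω' hω hω' (Prod.ext_iff.mp (Prod.ext_iff.mp h).2).2
    have key : ∀ ω, 0 < q ω → |(A ω : ℝ) - (I ω + (2 ^ x / 2 ^ t) *
        ∑ l, ka (kcl ω) l * tp z x i ω l)| ≤ 15 := by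
      intro ω hω
      have hx : ∀ l, |ka (kcl ω) l * (((dg z x i ω l : ℝ) + 2 ^ x * (tp z x i ω l : ℝ)) / 2 ^ t -
          Y ω l / 2 ^ (i * x + t))| ≤ 3 := by
        intro l
        rw [abs_mul]
        calc _ ≤ 1 * 3 := mul_le_mul (hka _ l) (v1 ω hω l) (abs_nonneg _) zero_le_one
          _ = 3 := by norm_num
      have k1 := fl_gap ((∑ l, ka (kcl ω) l * Y ω l) / 2 ^ (i * x + t))
      have k3 := fl_gap ((∑ l, ka (kcl ω) l * (dg z x i ω l : ℝ)) / 2 ^ t)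
      have k4 : |∑ l, ka (kcl ω) l * (((dg z x i ω l : ℝ) +
          2 ^ x * (tp z x i ω l : ℝ)) / 2 ^ t - Y ω l / 2 ^ (i * x + t))| ≤ 9 := by
        refine (Finset.abs_sum_le_sum_abs _ _).trans ((Finset.sum_le_sum fun l _ => hx l).trans ?_)
        norm_num
      have eA : (A ω : ℝ) = (⌊(∑ l, ka (kcl ω) l * Y ω l) / 2 ^ (i * x + t)⌋ : ℤ) := by rw [hA]
      have eI : (I ω : ℝ) = (⌊(∑ l, ka (kcl ω) l * (dg z x i ω l : ℝ)) / 2 ^ t⌋ : ℤ) := by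
        rw [hI]
      rw [eA, eI]
      have e5 : ∑ l, ka (kcl ω) l * (((dg z x i ω l : ℝ) +
          2 ^ x * (tp z x i ω l : ℝ)) / 2 ^ t - Y ω l / 2 ^ (i * x + t)) =
          (∑ l, ka (kcl ω) l * (dg z x i ω l : ℝ)) / 2 ^ t +
          (2 ^ x / 2 ^ t) * ∑ l, ka (kcl ω) l * tp z x i ω l -
          (∑ l, ka (kcl ω) l * Y ω l) / 2 ^ (i * x + t) := by
        rw [Finset.sum_div, Finset.sum_div, Finset.mul_sum, ← Finset.sum_add_distrib,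
          ← Finset.sum_sub_distrib]
        exact Finset.sum_congr rfl fun l _ => by ring
      rw [e5] at k4
      rw [abs_le] at k1 k3 k4 ⊢
      constructor <;> linarith [k1.1, k1.2, k3.1, k3.2, k4.1, k4.2]
    have h1 := key ω hω
    have h2 := key ω' hω'
    rw [← e1, ← e2, ← e3] at h2
    rw [abs_le] at h1 h2 ⊢
    constructor <;> linarith [h1.1, h1.2, h2.1, h2.2]
  have g8 : CH q I ZT ≤ CH q I (fun ω => (kcl ω, (tp z x i ω, Yb ω))) := by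
    refine CH_mono_cond h0 fun ω ω' hω hω' h => ?_
    rw [hZT] at h
    have e1 := (Prod.ext_iff.mp h).1
    have e2 := (Prod.ext_iff.mp h).2
    exact Prod.ext (hk ω ω' hω hω' e2) (Prod.ext e1 (hY ω ω' hω hω' e2))
  norm_num at g2
  linarith

/-- The digits above a block, from the heights. -/
theorem tp_near {z z' : ℤ} {Y Y' L : ℝ} {s : ℕ} (h : |(z : ℝ) - Y| ≤ 2) (h' : |(z' : ℝ) - Y'| ≤ 2)
    (hY : |Y - Y'| ≤ L * 2 ^ s) : |((z / 2 ^ s : ℤ) : ℝ) - (z' / 2 ^ s : ℤ)| ≤ L + 6 := by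
  have h1 := ht_gap h s
  have h2 := ht_gap h' s
  have h3 : |Y / 2 ^ s - Y' / 2 ^ s| ≤ L := by
    rw [← sub_div, abs_div, abs_of_pos (by positivity : (0 : ℝ) < 2 ^ s), div_le_iff₀ (by positivity)]
    exact hY
  rw [abs_le] at h1 h2 h3 ⊢
  constructor <;> linarith [h1.1, h1.2, h2.1, h2.2, h3.1, h3.2]

end Pool.T4I
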