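import Pool.Agent.H17.IMN.S

/-!
# The constant of the images

`imC`: the constant of the loss in the statement `ImKStmt` for one base place and three targets, times
`100`.
-/

set_option autoImplicit false

namespace Pool.T4I

open Pool.Agent.H49.Ent Pool.Agent.H32.Dense Pool.STK Pool.KA Pool.KSAT Pool.K2S Pool.PB Pool.S6C
open Pool.GEN Pool.REX Pool.REX83 Pool.NFT33 Pool.TOP
open Pool.IMN17

/-- The statement of the images with the constant `C`: one base place, three targets. -/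
def ImK13 (C : ℝ) : Prop := ∀ {m : ℕ} {S : PCl m} {C₀ : ℝ}
  {N₀ : ℚ → ℚ → ℝ} {al : ℝ} {g₀ : ℝ → ℝ} {c : ℕ → Fin m} {s xs : ℕ → ℝ} {w x κ : ℝ} {i₀ : ℕ},
  FZX 2 → FZX 3 → 0 ≤ C₀ → TmC S C₀ → 0 < al → (∀ ε : ℝ, 0 < ε → 0 < g₀ ε) →
  ActM N₀ al g₀ → i₀ < 1 → ActB N₀ S (c i₀) → Set.InjOn c (Set.Iio 4) →
  0 ≤ w → w ≤ x → 0 < κ → (∀ l < 3, κ ≤ s l ∧ 0 ≤ xs l ∧ s l + xs l ≤ x) →
  FulN S c 1 w κ → AbsN S c 1 3 s w κ → ImK S c 1 3 s xs w x κ (C * κ)

open Classical in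
/-- **The constant of the images.** -/
noncomputable def imC : ℝ :=
  if h : ∃ C : ℝ, 1 ≤ C ∧ ImK13 C then 100 * h.choose else 1

theorem imC_one : 1 ≤ imC := by
  unfold imC
  split_ifs with h
  · have := h.choose_spec.1
    linarith
  · exact le_rfl

/-- The constant from the statement of the images. -/
theorem imC_sp (H : ImKStmt) : ∃ C : ℝ, 1 ≤ C ∧ imC = 100 * C ∧ ImK13 C := by
  have h : ∃ C : ℝ, 1 ≤ C ∧ ImK13 C := by
    obtain ⟨C, h1, h2⟩ := H 1 3 le_rfl (by norm_num)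
    exact ⟨C, h1, h2⟩
  refine ⟨h.choose, h.choose_spec.1, ?_, h.choose_spec.2⟩
  unfold imC
  rw [dif_pos h]

end Pool.T4I
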