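import Pool.Agent.H43.T4.Iml
import Pool.Agent.H4.T4.Frd

/-!
# The images of a block on one event

`Im1`, `Im2`: the images of the heights with closed coefficients are full on one event, at one window.
`BlkD`: the data of one block: the condition of the images determines the side information and the
digits above the block. `blk1_ev`, `blk2_ev`: the images of the digits of the block.
-/

set_option autoImplicit false

namespace Pool.T4I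

open Finset Real
open Pool.Agent.H49.Ent Pool.Agent.H32.Dense
open Pool.STK hiding pr2
open Pool.KA Pool.KSAT Pool.K2S Pool.PB Pool.S6C
open Pool.GEN Pool.RCD
open Pool.V0F (cR)
open Pool.UNJ (ceI)
open Pool.T4H (dg tp)
open Pool.T4J (cR_pt cR_ln)
open Pool.DIR21 (cond_ci Pe_ci ci ci0 ci1)
open Pool.DIR16 (Pe_cc cond_cc)
open Pool.K2S (Pe)

/-- Only the support matters. -/
theorem cond_pos {Ω : Type} [Fintype Ω] {p : Ω → ℝ} (h0 : ∀ ω, 0 ≤ p ω) (E : Ω → Prop) :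
    cond p (fun ω => E ω ∧ 0 < p ω) True = cond p E True ∧ Pe p (fun ω => E ω ∧ 0 < p ω) = Pe p E := by
  have hc : ∀ ω, p ω * ci (E ω ∧ 0 < p ω) = p ω * ci (E ω) := by
    intro ω
    by_cases h : 0 < p ω
    · by_cases hE : E ω
      · rw [ci1 ⟨hE, h⟩, ci1 hE]
      · rw [ci0 (fun h' => hE h'.1), ci0 hE]
    · have : p ω = 0 := le_antisymm (not_lt.1 h) (h0 ω)
      rw [this, zero_mul, zero_mul]
  have e : Pe p (fun ω => E ω ∧ 0 < p ω) = Pe p E := by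
    rw [Pe_ci, Pe_ci]
    exact Finset.sum_congr rfl fun ω _ => hc ω
  refine ⟨?_, e⟩
  funext ω
  rw [cond_ci, cond_ci, e, hc]

/-- The support of a conditional law. -/
theorem cond_sup {Ω : Type} [Fintype Ω] {p : Ω → ℝ} (h0 : ∀ ω, 0 ≤ p ω) {E : Ω → Prop} {ω : Ω}
    (h : 0 < cond p E True ω) : E ω ∧ 0 < p ω := by
  rw [cond_ci] at h
  by_cases hE : E ω
  · refine ⟨hE, lt_of_le_of_ne (h0 ω) fun h1 => ?_⟩
    rw [← h1, zero_mul, zero_div] at h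
    exact lt_irrefl _ h
  · rw [ci0 hE, mul_zero, zero_div] at h
    exact absurd h (lt_irrefl _)

section

variable {m J : ℕ} {F : Fam m J} {B : F.Ω → Prop} {Φ υ : Type} {Fp : F.Ω → Φ}

/-- **One image of the heights `Y / 2 ^ s`** at the window `w`, on the event `G`. -/
def Im1 (F : Fam m J) (G : F.Ω → Prop) (I : Finset (Fin m)) (w : ℝ) (Y : F.Ω → Fin 3 → ℝ) (s : ℕ)
    (b : ℝ) : Prop :=
  ∀ (V : Type) (zp : PtT F → V) (z' : LnT F → V),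
    (∀ ω, G ω → zp (ptr F J ω) = z' (slam F ⌊w * J⌋₊ ω)) →
  ∀ ka : V → Fin 3 → ℝ, (∀ v l, |ka v l| ≤ 1) → (∀ v, ∃ l, ka v l = 1) →
    b ≤ CH (cond F.p G True)
      (fun ω => ⌊(∑ l, ka (z' (slam F ⌊w * J⌋₊ ω)) l * Y ω l) / 2 ^ s⌋)
      (fun ω => (ceI I (fun _ => J) (F.x ω), (z' (slam F ⌊w * J⌋₊ ω), F.W ω)))

/-- **Two images of the heights.** -/
def Im2 (F : Fam m J) (G : F.Ω → Prop) (I : Finset (Fin m)) (w : ℝ) (Y : F.Ω → Fin 3 → ℝ) (s : ℕ)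
    (b : ℝ) : Prop :=
  ∀ (V : Type) (zp : PtT F → V) (z' : LnT F → V),
    (∀ ω, G ω → zp (ptr F J ω) = z' (slam F ⌊w * J⌋₊ ω)) →
  ∀ ka : V → Fin 2 → Fin 3 → ℝ, (∀ v i l, |ka v i l| ≤ 1) →
    (∀ v, ∃ l l', ka v 0 l * ka v 1 l' - ka v 0 l' * ka v 1 l = 1) →
    b ≤ CH (cond F.p G True)
      (fun ω (i : Fin 2) => ⌊(∑ l, ka (z' (slam F ⌊w * J⌋₊ ω)) i l * Y ω l) / 2 ^ s⌋)
      (fun ω => (ceI I (fun _ => J) (F.x ω), (z' (slam F ⌊w * J⌋₊ ω), F.W ω)))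

/-- **The closed code of a window**: the code of the first window, the labels and the record. -/
theorem code_ex (hFp : ∀ ω ω', B ω → B ω' → ptr F J ω = ptr F J ω' → Fp ω = Fp ω')
    {a : ℕ} {v : ℝ} (ha : a ≤ ⌊v * J⌋₊) (hv : ⌊v * J⌋₊ ≤ J) {κ : Type} [Inhabited κ]
    (kL : LnT F → κ) (kP : Φ → κ) {G : F.Ω → Prop} (hGB : Sub G B)
    (hk : ∀ ω, G ω → kL (slam F a ω) = kP (Fp ω)) {U : Type} {qp : PtT F → U} {q' : LnT F → U}
    (hq : ∀ ω, G ω → qp (ptr F J ω) = q' (slam F ⌊v * J⌋₊ ω)) :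
    ∃ (ρ : Type) (zp : PtT F → κ × (U × ρ)) (z' : LnT F → κ × (U × ρ)),
      (∀ ω, G ω → zp (ptr F J ω) = z' (slam F ⌊v * J⌋₊ ω)) ∧
      (∀ ω, (z' (slam F ⌊v * J⌋₊ ω)).1 = kL (slam F a ω)) ∧
      (∀ ω ω', z' (slam F ⌊v * J⌋₊ ω) = z' (slam F ⌊v * J⌋₊ ω') →
        q' (slam F ⌊v * J⌋₊ ω) = q' (slam F ⌊v * J⌋₊ ω')) ∧
      ∀ ω ω', G ω → G ω' → z' (slam F ⌊v * J⌋₊ ω) = z' (slam F ⌊v * J⌋₊ ω') →
        cR F B v ω = cR F B v ω' := by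
  classical
  refine ⟨({D : F.Ω → Prop // Cl2 (ptr F J) (vg v J F) B D} → Prop),
    fun x => if h : ∃ ω, G ω ∧ ptr F J ω = x then
    (kP (Fp h.choose), (qp x, cR F B v h.choose)) else (default, (qp x, fun _ => False)),
    fun s => (kL (Pool.AVG57.upw a ⌊v * J⌋₊ s), (q' s,
      if h : ∃ ω, G ω ∧ slam F ⌊v * J⌋₊ ω = s then
      cR F B v h.choose else fun _ => False)), ?_, ?_, ?_, ?_⟩
  · intro ω hω
    have h1 : ∃ ω', G ω' ∧ ptr F J ω' = ptr F J ω := ⟨ω, hω, rfl⟩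
    have h2 : ∃ ω', G ω' ∧ slam F ⌊v * J⌋₊ ω' = slam F ⌊v * J⌋₊ ω := ⟨ω, hω, rfl⟩
    beta_reduce
    rw [dif_pos h1, dif_pos h2, Pool.AVG57.upw_slam F ha hv]
    have e1 := h1.choose_spec
    have e2 := h2.choose_spec
    refine Prod.ext ?_ (Prod.ext (hq ω hω) ?_)
    · show kP (Fp h1.choose) = kL (slam F a ω)
      rw [hk ω hω, hFp _ _ (hGB _ e1.1) (hGB ω hω) e1.2]
    · show cR F B v h1.choose = cR F B v h2.choose
      rw [cR_pt (hGB _ e1.1) (hGB ω hω) e1.2, cR_ln (hGB _ e2.1) (hGB ω hω) e2.2]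
  · intro ω
    show kL (Pool.AVG57.upw a ⌊v * J⌋₊ (slam F ⌊v * J⌋₊ ω)) = _
    rw [Pool.AVG57.upw_slam F ha hv]
  · intro ω ω' h
    exact (Prod.ext_iff.mp (Prod.ext_iff.mp h).2).1
  · intro ω ω' hω hω' h
    have h1 : ∃ ν, G ν ∧ slam F ⌊v * J⌋₊ ν = slam F ⌊v * J⌋₊ ω := ⟨ω, hω, rfl⟩
    have h2 : ∃ ν, G ν ∧ slam F ⌊v * J⌋₊ ν = slam F ⌊v * J⌋₊ ω' := ⟨ω', hω', rfl⟩
    have e := (Prod.ext_iff.mp (Prod.ext_iff.mp h).2).2
    simp only at e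
    rw [dif_pos h1, dif_pos h2] at e
    have e1 := h1.choose_spec
    have e2 := h2.choose_spec
    rw [cR_ln (hGB _ e1.1) (hGB ω hω) e1.2, cR_ln (hGB _ e2.1) (hGB ω' hω') e2.2] at e
    exact e

/-- **The data of one block** of the digits `i x, …, (i + 1) x` of `z`, on the event `G`: `Y`: the
heights; `qp`, `q'`: a closed code of the window `v` (the labels); `B`: the event of the record. -/
structure BlkD (F : Fam m J) (B G : F.Ω → Prop) {Φ υ U : Type} (Fp : F.Ω → Φ)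
    (z : F.Ω → Fin 3 → ℤ) (Yb : F.Ω → υ) (Y : F.Ω → Fin 3 → ℝ) (I : Finset (Fin m)) (v : ℝ)
    (qp : PtT F → U) (q' : LnT F → U) (a s : ℕ) (L : ℝ) : Prop where
  gb : Sub G B
  ps : 0 < Pe F.p G
  fp : ∀ ω ω', B ω → B ω' → ptr F J ω = ptr F J ω' → Fp ω = Fp ω'
  z2 : ∀ ω, G ω → ∀ l, |(z ω l : ℝ) - Y ω l| ≤ 2
  av : a ≤ ⌊v * J⌋₊
  vJ : ⌊v * J⌋₊ ≤ J
  cq : ∀ ω, G ω → qp (ptr F J ω) = q' (slam F ⌊v * J⌋₊ ω)
  nr : ∀ ω ω', G ω → G ω' → ceI I (fun _ => J) (F.x ω) = ceI I (fun _ => J) (F.x ω') →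
    q' (slam F ⌊v * J⌋₊ ω) = q' (slam F ⌊v * J⌋₊ ω') → F.W ω = F.W ω' →
    ∀ l, |Y ω l - Y ω' l| ≤ L * 2 ^ s
  yb : ∀ ω ω', G ω → G ω' → ceI I (fun _ => J) (F.x ω) = ceI I (fun _ => J) (F.x ω') →
    cR F B v ω = cR F B v ω' → F.W ω = F.W ω' → Yb ω = Yb ω'

/-- One block: the closed code and what it determines. -/
theorem BlkD.code {G : F.Ω → Prop} {U : Type} {z : F.Ω → Fin 3 → ℤ} {Yb : F.Ω → υ}
    {Y : F.Ω → Fin 3 → ℝ} {I : Finset (Fin m)} {v : ℝ} {qp : PtT F → U} {q' : LnT F → U}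
    {a x i : ℕ} {L : ℝ} (h : BlkD F B G Fp z Yb Y I v qp q' a ((i + 1) * x) L) {κ : Type}
    [Inhabited κ] {kL : LnT F → κ} {kP : Φ → κ} (hk : ∀ ω, G ω → kL (slam F a ω) = kP (Fp ω)) :
    ∃ (V : Type) (zp : PtT F → V) (z' : LnT F → V) (r : V → κ),
      (∀ ω, G ω → zp (ptr F J ω) = z' (slam F ⌊v * J⌋₊ ω)) ∧
      (∀ ω, r (z' (slam F ⌊v * J⌋₊ ω)) = kL (slam F a ω)) ∧
      Det (cond F.p G True)
        (fun ω => (ceI I (fun _ => J) (F.x ω), (z' (slam F ⌊v * J⌋₊ ω), F.W ω)))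
        (fun ω => kL (slam F a ω)) ∧
      Det (cond F.p G True)
        (fun ω => (ceI I (fun _ => J) (F.x ω), (z' (slam F ⌊v * J⌋₊ ω), F.W ω))) Yb ∧
      ∀ ω ω', 0 < cond F.p G True ω → 0 < cond F.p G True ω' →
        (ceI I (fun _ => J) (F.x ω), (z' (slam F ⌊v * J⌋₊ ω), F.W ω)) =
          (ceI I (fun _ => J) (F.x ω'), (z' (slam F ⌊v * J⌋₊ ω'), F.W ω')) →
        ∀ l, |(tp z x i ω l : ℝ) - tp z x i ω' l| ≤ L + 6 := by
  have h0 := F.isLaw.nonneg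
  obtain ⟨ρ, zp, z', z1, z2, z3, z4⟩ := code_ex h.fp h.av h.vJ kL kP h.gb hk h.cq
  refine ⟨_, zp, z', Prod.fst, z1, z2, ?_, ?_, ?_⟩
  · intro ω ω' _ _ e
    have e1 := (Prod.ext_iff.mp (Prod.ext_iff.mp e).2).1
    show kL (slam F a ω) = kL (slam F a ω')
    rw [← z2, ← z2]
    exact congrArg Prod.fst e1
  · intro ω ω' hω hω' e
    obtain ⟨g1, -⟩ := cond_sup h0 hω
    obtain ⟨g2, -⟩ := cond_sup h0 hω'
    have e1 := (Prod.ext_iff.mp e).1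
    have e2 := (Prod.ext_iff.mp (Prod.ext_iff.mp e).2).1
    have e3 := (Prod.ext_iff.mp (Prod.ext_iff.mp e).2).2
    exact h.yb ω ω' g1 g2 e1 (z4 ω ω' g1 g2 e2) e3
  · intro ω ω' hω hω' e l
    obtain ⟨g1, -⟩ := cond_sup h0 hω
    obtain ⟨g2, -⟩ := cond_sup h0 hω'
    have e1 := (Prod.ext_iff.mp e).1
    have e2 := (Prod.ext_iff.mp (Prod.ext_iff.mp e).2).1
    have e3 := (Prod.ext_iff.mp (Prod.ext_iff.mp e).2).2
    exact tp_near (h.z2 ω g1 l) (h.z2 ω' g2 l) (h.nr ω ω' g1 g2 e1 (z3 ω ω' e2) e3 l)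

/-- **One image of a block.** -/
theorem blk1_ev {G : F.Ω → Prop} {U : Type} {z : F.Ω → Fin 3 → ℤ} {Yb : F.Ω → υ}
    {Y : F.Ω → Fin 3 → ℝ} {I : Finset (Fin m)} {v : ℝ} {qp : PtT F → U} {q' : LnT F → U}
    {a x i t : ℕ} {L b : ℝ} (h : BlkD F B G Fp z Yb Y I v qp q' a ((i + 1) * x) L)
    (hI : Im1 F G I v Y (i * x + t) b) {kL : LnT F → Fin 3 → ℤ} {kP : Φ → Fin 3 → ℤ}
    {ka : (Fin 3 → ℤ) → Fin 3 → ℝ} {j : Fin 3} (hj : ∀ k, ka k j = 1) (hka : ∀ k i, |ka k i| ≤ 1)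
    (hk : ∀ ω, G ω → kL (slam F a ω) = kP (Fp ω)) :
    b - 3 * Real.log (2 * (L + 6) + 1) - Real.log 100 ≤ CH (cond F.p G True)
      (fun ω => ⌊(∑ l, ka (kL (slam F a ω)) l * (dg z x i ω l : ℝ)) / 2 ^ t⌋)
      (fun ω => (kL (slam F a ω), (tp z x i ω, Yb ω))) := by
  obtain ⟨V, zp, z', r, z1, z2, d1, d2, d3⟩ := h.code hk
  have h1 := hI V zp z' z1 (fun v => ka (r v)) (fun v l => hka _ l) (fun v => ⟨j, hj _⟩)
  refine fi1s_law (isLaw_cond F.isLaw h.ps) (Y := Y) (fun ω hω l =>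
    h.z2 ω (cond_sup F.isLaw.nonneg hω).1 l) hka d1 d2 d3 (h1.trans (le_of_eq ?_))
  congr 1
  funext ω
  show ⌊(∑ l, ka (r (z' (slam F ⌊v * J⌋₊ ω))) l * Y ω l) / 2 ^ (i * x + t)⌋ = _
  rw [z2]

/-- The coefficients of two images with the pivot column `j`. -/
def ka2 (ka : Fin 3 → ℝ) (j : Fin 3) (i : Fin 2) (l : Fin 3) : ℝ :=
  if l = j.succAbove i then 1 else if l = j then -ka (j.succAbove i) else 0

theorem ka2_le {ka : Fin 3 → ℝ} (h : ∀ l, |ka l| ≤ 1) (j : Fin 3) (i : Fin 2) (l : Fin 3) :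
    |ka2 ka j i l| ≤ 1 := by
  unfold ka2
  split_ifs
  · rw [abs_one]
  · rw [abs_neg]; exact h _
  · rw [abs_zero]; exact zero_le_one

theorem ka2_mn (ka : Fin 3 → ℝ) (j : Fin 3) : ka2 ka j 0 (j.succAbove 0) * ka2 ka j 1 (j.succAbove 1) -
    ka2 ka j 0 (j.succAbove 1) * ka2 ka j 1 (j.succAbove 0) = 1 := by
  have h01 : j.succAbove (0 : Fin 2) ≠ j.succAbove 1 := fun h => by
    have := Fin.succAbove_right_injective h
    exact absurd this (by decide)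
  have h0 : j.succAbove (0 : Fin 2) ≠ j := Fin.succAbove_ne j 0
  have h1 : j.succAbove (1 : Fin 2) ≠ j := Fin.succAbove_ne j 1
  unfold ka2
  rw [if_pos rfl, if_pos rfl, if_neg h01.symm, if_neg h1, if_neg h01, if_neg h0]
  ring

theorem ka2_sum (ka Y : Fin 3 → ℝ) (j : Fin 3) (i : Fin 2) :
    ∑ l, ka2 ka j i l * Y l = Y (j.succAbove i) - ka (j.succAbove i) * Y j := by
  rw [Fin.sum_univ_succAbove _ j]
  have h0 : ∀ i : Fin 2, j.succAbove i ≠ j := fun i => Fin.succAbove_ne j i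
  have e1 : ka2 ka j i j = -ka (j.succAbove i) := by
    unfold ka2
    rw [if_neg (h0 i).symm, if_pos rfl]
  have e2 : ∀ i' : Fin 2, ka2 ka j i (j.succAbove i') * Y (j.succAbove i') =
      if i' = i then Y (j.succAbove i) else 0 := by
    intro i'
    unfold ka2
    by_cases h : i' = i
    · rw [h, if_pos rfl, if_pos rfl, one_mul]
    · rw [if_neg (fun h' => h (Fin.succAbove_right_injective h')), if_neg (h0 i'), if_neg h,
        zero_mul]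
  rw [e1, Finset.sum_congr rfl fun i' _ => e2 i', Finset.sum_ite_eq' Finset.univ i,
    if_pos (Finset.mem_univ _)]
  ring

/-- **The pair of images of a block.** -/
theorem blk2_ev {G : F.Ω → Prop} {U : Type} {z : F.Ω → Fin 3 → ℤ} {Yb : F.Ω → υ}
    {Y : F.Ω → Fin 3 → ℝ} {I : Finset (Fin m)} {v : ℝ} {qp : PtT F → U} {q' : LnT F → U}
    {a x i : ℕ} {L b : ℝ} (h : BlkD F B G Fp z Yb Y I v qp q' a ((i + 1) * x) L)
    (hI : Im2 F G I v Y (i * x) b) {kL : LnT F → Fin 3 → ℤ} {kP : Φ → Fin 3 → ℤ}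
    {ka : (Fin 3 → ℤ) → Fin 3 → ℝ} {j : Fin 3} (hka : ∀ k i, |ka k i| ≤ 1)
    (hk : ∀ ω, G ω → kL (slam F a ω) = kP (Fp ω)) :
    b - 3 * Real.log (2 * (L + 6) + 1) - 2 * Real.log 33 ≤ CH (cond F.p G True)
      (fun ω (l : Fin 3) => ⌊((dg z x i ω l : ℝ) - ka (kL (slam F a ω)) l * (dg z x i ω j : ℝ)) /
        2 ^ 0⌋)
      (fun ω => (kL (slam F a ω), (tp z x i ω, Yb ω))) := by
  obtain ⟨V, zp, z', r, z1, z2, d1, d2, d3⟩ := h.code hk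
  have h1 := hI V zp z' z1 (fun v => ka2 (ka (r v)) j) (fun v i l => ka2_le (hka _) j i l)
    (fun v => ⟨_, _, ka2_mn (ka (r v)) j⟩)
  refine fi2_law (isLaw_cond F.isLaw h.ps) (Y := Y) (ps := fun i => j.succAbove i) (fun ω hω l =>
    h.z2 ω (cond_sup F.isLaw.nonneg hω).1 l) hka d1 d2 d3 (h1.trans (le_of_eq ?_))
  congr 1
  funext ω i'
  show ⌊(∑ l, ka2 (ka (r (z' (slam F ⌊v * J⌋₊ ω)))) j i' l * Y ω l) / 2 ^ (i * x)⌋ = _
  rw [ka2_sum, z2]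

end

end Pool.T4I
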