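import Pool.Agent.H36.T4.Cls
import Pool.Agent.H43.T4.Imv
import Pool.Agent.H43.T4.Imc
import Pool.Agent.H74.STAT.NNo

/-!
# The images of the heights in integer units, on the subevents

`im1_of`, `im2_of`: the images `Im1`, `Im2` of the heights in the units `2 ^ (-(g l))` from `IMN`, on
all subevents of mass `ϖ` of an event with the frame.
-/

set_option autoImplicit false

namespace Pool.T4I

open Finset Real MvPolynomial
open Pool.Agent.H49.Ent Pool.Agent.H32.Dense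
open Pool.STK hiding pr2
open Pool.KA Pool.KSAT Pool.K2S Pool.PB Pool.S6C
open Pool.GEN Pool.CHT Pool.LA91 Pool.RCD
open Pool.UNJ (ceI)
open Pool.T4N (Frm FrmP fX IMN)

theorem two_exp (g s : ℕ) (u : ℝ) :
    (2 : ℝ) ^ ((g : ℝ) - s - u) * 2 ^ u = 2 ^ g / 2 ^ s := by
  rw [← Real.rpow_add (by norm_num), show (g : ℝ) - s - u + u = (g : ℝ) - s by ring,
    Real.rpow_sub (by norm_num), Real.rpow_natCast, Real.rpow_natCast]

/-- The change of the units in one image. -/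
theorem unit_sum (k X : Fin 3 → ℝ) (g : Fin 3 → ℕ) (s : ℕ) (u : Fin 3 → ℝ) :
    ∑ l, (k l * (2 : ℝ) ^ ((g l : ℝ) - s - u l)) * ((2 : ℝ) ^ u l * X l) =
      (∑ l, k l * (2 ^ g l * X l)) / 2 ^ s := by
  rw [Finset.sum_div]
  refine Finset.sum_congr rfl fun l _ => ?_
  have h := two_exp (g l) s (u l)
  calc (k l * (2 : ℝ) ^ ((g l : ℝ) - s - u l)) * ((2 : ℝ) ^ u l * X l) =
        k l * X l * ((2 : ℝ) ^ ((g l : ℝ) - s - u l) * 2 ^ u l) := by ring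
    _ = k l * X l * (2 ^ g l / 2 ^ s) := by rw [h]
    _ = k l * (2 ^ g l * X l) / 2 ^ s := by ring

theorem rpow_abs {a b : ℝ} (h : |a| ≤ b) : (2 : ℝ) ^ a ≤ 2 ^ b ∧ (2 : ℝ) ^ (-b) ≤ 2 ^ a :=
  ⟨Real.rpow_le_rpow_of_exponent_le (by norm_num) (le_of_abs_le h),
    Real.rpow_le_rpow_of_exponent_le (by norm_num) (by linarith [neg_le_of_abs_le h])⟩

variable {m : ℕ} {S : PCl m} {c : ℕ → Fin m} {sn : ℕ → ℝ → ℝ} {bl pl : ℕ → ℝ} {v room κ : ℝ}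

/-- **One image** in integer units. -/
theorem im1_of (h : IMN S c sn bl pl v room κ) (hκ : 0 ≤ κ) {η ϖ : ℝ} (hη : 0 < η) (hϖ : 0 < ϖ) :
    ∃ e₀ : ℝ, 0 < e₀ ∧ Bas S (fun J F B => ∀ Fr : Frm F,
      FrmP F c (fun i => ⌊bl i * J⌋₊) (fun i => ⌊(pl i - e₀) * J⌋₊) B Fr →
      ∀ G : F.Ω → Prop, Sub G B → ϖ * Pe F.p B ≤ Pe F.p G →
      ∀ (g : Fin 3 → ℕ) (s : ℕ) (M : ℝ), M ≤ room →
      (∀ l : Fin 3, |(g l : ℝ) - s - (sn (1 + l) v + M) * J| ≤ 8 * κ * J) →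
      Im1 F G ((range 1).image c) v (fun ω l => 2 ^ g l * fX F c (fun i => ⌊bl i * J⌋₊) Fr ω l) s
        ((M - imC * κ - η) * Real.log 2 * J)) := by
  obtain ⟨e₀, he₀, H⟩ := h.one η hη
  refine ⟨e₀, he₀, Bas.mono 0 (Pool.STAT.NL.Bas.frac H hϖ) ?_⟩
  rintro J - F B H1 Fr hFr G hGB hP g s M hM hg V zp z' hcl ka hka hk1
  have hJ : (0 : ℝ) ≤ J := Nat.cast_nonneg J
  have hκJ : 0 ≤ κ * J := mul_nonneg hκ hJ
  have h2 := H1 G hGB hP Fr (hFr.sub hGB) V zp z' hcl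
    (fun x l => ka x l * (2 : ℝ) ^ ((g l : ℝ) - s - (sn (1 + l) v + M) * J)) ?_ ?_ M hM
  · refine h2.trans (le_of_eq ?_)
    congr 1
    funext ω
    exact congrArg Int.floor (unit_sum (ka (z' (slam F ⌊v * J⌋₊ ω)))
      (fX F c (fun i => ⌊bl i * J⌋₊) Fr ω) g s fun l => (sn (1 + l) v + M) * J)
  · intro ω _ l
    show |ka _ l * (2 : ℝ) ^ ((g l : ℝ) - s - (sn (1 + l) v + M) * J)| ≤ _
    rw [abs_mul, abs_of_pos (Real.rpow_pos_of_pos (by norm_num) _)]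
    have h1 := (rpow_abs (hg l)).1
    calc _ ≤ 1 * (2 : ℝ) ^ (8 * κ * J) := mul_le_mul (hka _ l) h1
          (Real.rpow_pos_of_pos (by norm_num) _).le zero_le_one
      _ ≤ _ := by
        rw [one_mul]
        exact Real.rpow_le_rpow_of_exponent_le (by norm_num) (by linarith)
  · intro ω _
    obtain ⟨l, hl⟩ := hk1 (z' (slam F ⌊v * J⌋₊ ω))
    refine ⟨l, ?_⟩
    show _ ≤ |ka _ l * (2 : ℝ) ^ ((g l : ℝ) - s - (sn (1 + l) v + M) * J)|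
    rw [hl, one_mul, abs_of_pos (Real.rpow_pos_of_pos (by norm_num) _)]
    refine le_trans ?_ (rpow_abs (hg l)).2
    exact Real.rpow_le_rpow_of_exponent_le (by norm_num) (by linarith)

/-- **Two images** in integer units. -/
theorem im2_of (h : IMN S c sn bl pl v room κ) (hκ : 0 ≤ κ) {η ϖ : ℝ} (hη : 0 < η) (hϖ : 0 < ϖ) :
    ∃ e₀ : ℝ, 0 < e₀ ∧ Bas S (fun J F B => ∀ Fr : Frm F,
      FrmP F c (fun i => ⌊bl i * J⌋₊) (fun i => ⌊(pl i - e₀) * J⌋₊) B Fr →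
      ∀ G : F.Ω → Prop, Sub G B → ϖ * Pe F.p B ≤ Pe F.p G →
      ∀ (g : Fin 3 → ℕ) (s : ℕ) (M : ℝ), M ≤ room →
      (∀ l : Fin 3, |(g l : ℝ) - s - (sn (1 + l) v + M) * J| ≤ 8 * κ * J) →
      Im2 F G ((range 1).image c) v (fun ω l => 2 ^ g l * fX F c (fun i => ⌊bl i * J⌋₊) Fr ω l) s
        ((2 * M - imC * κ - η) * Real.log 2 * J)) := by
  obtain ⟨e₀, he₀, H⟩ := h.two η hη
  refine ⟨e₀, he₀, Bas.mono 0 (Pool.STAT.NL.Bas.frac H hϖ) ?_⟩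
  rintro J - F B H1 Fr hFr G hGB hP g s M hM hg V zp z' hcl ka hka hk1
  have hJ : (0 : ℝ) ≤ J := Nat.cast_nonneg J
  have hκJ : 0 ≤ κ * J := mul_nonneg hκ hJ
  have h2 := H1 G hGB hP Fr (hFr.sub hGB) V zp z' hcl
    (fun x i l => ka x i l * (2 : ℝ) ^ ((g l : ℝ) - s - (sn (1 + l) v + M) * J)) ?_ ?_ M hM
  · refine h2.trans (le_of_eq ?_)
    congr 1
    funext ω i
    exact congrArg Int.floor (unit_sum (ka (z' (slam F ⌊v * J⌋₊ ω)) i)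
      (fX F c (fun i => ⌊bl i * J⌋₊) Fr ω) g s fun l => (sn (1 + l) v + M) * J)
  · intro ω _ i l
    show |ka _ i l * (2 : ℝ) ^ ((g l : ℝ) - s - (sn (1 + l) v + M) * J)| ≤ _
    rw [abs_mul, abs_of_pos (Real.rpow_pos_of_pos (by norm_num) _)]
    have h1 := (rpow_abs (hg l)).1
    calc _ ≤ 1 * (2 : ℝ) ^ (8 * κ * J) := mul_le_mul (hka _ i l) h1
          (Real.rpow_pos_of_pos (by norm_num) _).le zero_le_one
      _ ≤ _ := by
        rw [one_mul]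
        exact Real.rpow_le_rpow_of_exponent_le (by norm_num) (by linarith)
  · intro ω _
    obtain ⟨l, l', hl⟩ := hk1 (z' (slam F ⌊v * J⌋₊ ω))
    refine ⟨l, l', ?_⟩
    obtain ⟨A, hA⟩ : ∃ A : Fin 3 → ℝ, A = fun l => (2 : ℝ) ^ ((g l : ℝ) - s - (sn (1 + l) v + M) * J) :=
      ⟨_, rfl⟩
    have hA1 : ∀ l, (2 : ℝ) ^ (-(8 * κ * J)) ≤ A l := fun l => by
      rw [hA]
      exact (rpow_abs (hg l)).2
    have e : ∀ l : Fin 3, (2 : ℝ) ^ ((g l : ℝ) - s - (sn (1 + l) v + M) * J) = A l := fun l => by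
      rw [hA]
    show (2 : ℝ) ^ (-(16 * κ * J)) ≤
      |ka (z' (slam F ⌊v * J⌋₊ ω)) 0 l * (2 : ℝ) ^ ((g l : ℝ) - s - (sn (1 + l) v + M) * J) *
          (ka (z' (slam F ⌊v * J⌋₊ ω)) 1 l' * (2 : ℝ) ^ ((g l' : ℝ) - s - (sn (1 + l') v + M) * J)) -
        ka (z' (slam F ⌊v * J⌋₊ ω)) 0 l' * (2 : ℝ) ^ ((g l' : ℝ) - s - (sn (1 + l') v + M) * J) *
          (ka (z' (slam F ⌊v * J⌋₊ ω)) 1 l * (2 : ℝ) ^ ((g l : ℝ) - s - (sn (1 + l) v + M) * J))|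
    rw [e l, e l']
    have e1 : ka (z' (slam F ⌊v * J⌋₊ ω)) 0 l * A l * (ka (z' (slam F ⌊v * J⌋₊ ω)) 1 l' * A l') -
        ka (z' (slam F ⌊v * J⌋₊ ω)) 0 l' * A l' * (ka (z' (slam F ⌊v * J⌋₊ ω)) 1 l * A l) =
        (ka (z' (slam F ⌊v * J⌋₊ ω)) 0 l * ka (z' (slam F ⌊v * J⌋₊ ω)) 1 l' -
          ka (z' (slam F ⌊v * J⌋₊ ω)) 0 l' * ka (z' (slam F ⌊v * J⌋₊ ω)) 1 l) * (A l * A l') := by
      ring
    have p1 : (0 : ℝ) < 2 ^ (-(8 * κ * J)) := Real.rpow_pos_of_pos (by norm_num) _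
    rw [e1, hl, one_mul, abs_of_pos (mul_pos (p1.trans_le (hA1 l)) (p1.trans_le (hA1 l')))]
    calc (2 : ℝ) ^ (-(16 * κ * J)) = 2 ^ (-(8 * κ * J)) * 2 ^ (-(8 * κ * J)) := by
          rw [← Real.rpow_add (by norm_num)]
          congr 1
          ring
      _ ≤ A l * A l' := mul_le_mul (hA1 l) (hA1 l') p1.le (p1.le.trans (hA1 l))

end Pool.T4I
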