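import Pool.Agent.H4.T4.Lbx

/-!
# The heights of two samples with the same labels

`fx_near`: over natural affine labels of a window, two samples at one time with the same labels and
nearly the same position of `c 0` have nearly the same heights over the frame.
-/

set_option autoImplicit false

namespace Pool.T4I

open Finset Real MvPolynomial
open Pool.Agent.H49.Ent Pool.Agent.H32.Dense
open Pool.STK hiding pr2
open Pool.KA Pool.KSAT Pool.K2S Pool.PB Pool.S6C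
open Pool.GEN Pool.CHT Pool.CHX Pool.ISO
open Pool.D2R Pool.GF64
open Pool.RCD Pool.LA91
open Pool.D2F2 (hgp ojet_hgp)
open Pool.T4N (Frm FrmP fX)
open Pool.T4J

variable {m J : ℕ}

/-- The height over the frame, by the label at the exact point. -/
theorem fX_hgp {F : Fam m J} {c : ℕ → Fin m} {w P : Fin 3 → ℕ} {B : F.Ω → Prop} {Fr : Frm F}
    (h : FrmP F c w P B Fr) {ω : F.Ω} (hω : B ω) (i : Fin 3) :
    fX F c w Fr ω i = hgp F (c (1 + i)) (frG Fr (ptr F J ω) (1 + i)) ω := by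
  unfold fX
  rw [ojet_hgp, frG_in, (h.lab i).cls ω hω]

/-- The difference of the positions over an affine polynomial. -/
theorem hgp_sub {F : Fam m J} {k : Fin m} {Q : MvPolynomial (Option (Fin m)) ℝ}
    (hQ : Q.totalDegree ≤ 1) (ω ω' : F.Ω) : hgp F k Q ω' - hgp F k Q ω =
      (bt F ω' (some k) - bt F ω (some k)) - dd Q (bt F ω) (fun o => bt F ω' o - bt F ω o) := by
  have h1 := ev_aff hQ (bt F ω) (bt F ω')
  unfold hgp
  rw [← h1]
  show F.x ω' k - _ - (F.x ω k - _) = (F.x ω' k - F.x ω k) - _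
  ring

/-- **The heights of two samples with the same labels**, at the same time. `φ`: the errors of the
levels. -/
theorem fx_near {F : Fam m J} {c : ℕ → Fin m} (hc : Set.InjOn c (Set.Iio 4)) {w P : Fin 3 → ℕ}
    {B : F.Ω → Prop} {Fr : Frm F} (hFr : FrmP F c w P B Fr) {v ε φ : ℝ} {lt lv : ℕ → ℝ}
    {GB : PtT F → ℕ → MvPolynomial (Option (Fin m)) ℝ}
    {HB : LnT F → ℕ → MvPolynomial (Option (Fin m)) ℝ}
    (hL : LbN F c 3 B v lt lv ε (frG Fr) GB HB) (hε : 0 ≤ ε) (hφ : 0 ≤ φ)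
    (hsl : ∀ i, 1 ≤ i → i ≤ 3 → ∀ j, 1 ≤ j → j < i → lt j - lt i - lv j ≤ φ - lv i)
    (h0 : ∀ i, 1 ≤ i → i ≤ 3 → lt 0 - lt i - 1 ≤ φ - lv i)
    {ω ω' : F.Ω} (hω : B ω) (hω' : B ω') (hT : F.T ω = F.T ω')
    (hGA : ∀ i : Fin 3, Fr.z i (ptr F J ω) = Fr.z i (ptr F J ω'))
    (hGB : ∀ l, 1 ≤ l → l ≤ 3 → GB (ptr F J ω) l = GB (ptr F J ω') l)
    (hx : |F.x ω (c 0) - F.x ω' (c 0)| ≤ 2 ^ (-(J : ℝ))) (i : Fin 3) :
    |fX F c w Fr ω i - fX F c w Fr ω' i| ≤ 8 * 2 ^ ((2 * ε + φ - lv (1 + i)) * J) := by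
  have hi := i.2
  have hJ : (0 : ℝ) ≤ J := Nat.cast_nonneg J
  obtain ⟨i', hi'⟩ : ∃ i' : ℕ, i' = 1 + (i : ℕ) := ⟨_, rfl⟩
  have h1i : 1 ≤ i' := by omega
  have hi3 : i' ≤ 3 := by omega
  rw [fX_hgp hFr hω, fX_hgp hFr hω', ← hi']
  obtain ⟨GA, hGAd⟩ : ∃ GA, GA = frG Fr (ptr F J ω) i' := ⟨_, rfl⟩
  have eGA : frG Fr (ptr F J ω') i' = GA := by
    rw [hGAd, hi', frG_in, frG_in, hGA i]
  have dGA : GA.totalDegree ≤ 1 := by
    rw [hGAd, hi', frG_in]
    exact (hFr.lab i).deg _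
  have pGA : DepC c i' GA := by
    rw [hGAd, hi', frG_in]
    intro b b' h1 h2
    refine (hFr.lab i).dep _ b b' h1 fun k hk => ?_
    obtain ⟨l, hl, rfl⟩ := Finset.mem_image.1 hk
    exact h2 l (Finset.mem_range.1 hl)
  rw [eGA, ← hGAd, abs_sub_comm, hgp_sub dGA]
  obtain ⟨V, hV⟩ : ∃ V : Option (Fin m) → ℝ, V = fun o => bt F ω' o - bt F ω o := ⟨_, rfl⟩
  have hV0 : V none = 0 := by
    rw [hV]
    show F.t ω' - F.t ω = 0
    unfold Fam.t
    rw [hT, sub_self]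
  have e1 : bt F ω' (some (c i')) - bt F ω (some (c i')) = V (some (c i')) := by rw [hV]
  rw [e1, ← hV]
  have hci : Set.InjOn c (Set.Iio i') := hc.mono fun y hy => by
    rw [Set.mem_Iio] at hy ⊢
    omega
  obtain ⟨GF, hGF⟩ : ∃ GF, GF = frA 3 (GB (ptr F J ω)) := ⟨_, rfl⟩
  have hGFd : ∀ l, DepC c l (GF l) := by
    rw [hGF]
    exact frA_dep fun l h1 h2 => (hL.dg _ l h1 h2).2
  have hGFi : ∀ l, 1 ≤ l → l ≤ 3 → GF l = GB (ptr F J ω) l := fun l h1 h2 => by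
    rw [hGF, frA_in h1 h2]
  have hid := lin_id hci hGFd pGA (x := bt F ω) hV0
  -- the components
  have cmp : ∀ l, 1 ≤ l → l ≤ 3 →
      |V (some (c l)) - dd (GF l) (bt F ω) V| ≤ 2 * 2 ^ ((ε - lv l) * J) := by
    intro l h1 h2
    have h3 := hgp_sub (F := F) (k := c l) (hL.dg (ptr F J ω) l h1 h2).1 ω ω'
    have e2 : bt F ω' (some (c l)) - bt F ω (some (c l)) = V (some (c l)) := by rw [hV]
    rw [e2, ← hV] at h3
    rw [hGFi l h1 h2, ← h3]
    have h4 := hL.hgt ω hω l h1 h2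
    have h5 := hL.hgt ω' hω' l h1 h2
    rw [← hGB l h1 h2] at h5
    refine (abs_sub _ _).trans ?_
    linarith
  have cmp0 : |V (some (c 0)) - dd (GF 0) (bt F ω) V| ≤ 2 ^ (-(J : ℝ)) := by
    have e2 : dd (GF 0) (bt F ω) V = 0 := by
      rw [hGF, frA_zero]
      unfold dd
      simp
    rw [e2, sub_zero, hV]
    show |F.x ω' (c 0) - F.x ω (c 0)| ≤ _
    rw [abs_sub_comm]
    exact hx
  have hρ : ∀ j < i', |ncp c i' GF (GF i' - GA) (bt F ω) j| ≤ 2 ^ ((ε + lt j - lt i') * J) := by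
    intro j hj
    have h1 := hL.rho ω hω i' h1i hi3 j hj
    rw [← hGF, ← hGAd, ← hGFi i' h1i hi3] at h1
    exact h1
  rw [hid]
  obtain ⟨T, hTd⟩ : ∃ T : ℝ, T = 2 ^ ((2 * ε + φ - lv i') * J) := ⟨_, rfl⟩
  have hT0 : 0 < T := by
    rw [hTd]
    exact Real.rpow_pos_of_pos (by norm_num) _
  have mono : ∀ {a b : ℝ}, a ≤ b → (2 : ℝ) ^ (a * J) ≤ 2 ^ (b * J) := fun h =>
    Real.rpow_le_rpow_of_exponent_le (by norm_num) (mul_le_mul_of_nonneg_right h hJ)
  have t0 : |V (some (c i')) - dd (GF i') (bt F ω) V| ≤ 2 * T := by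
    refine (cmp i' h1i hi3).trans ?_
    rw [hTd]
    exact mul_le_mul_of_nonneg_left (mono (by linarith)) (by norm_num)
  have tj : ∀ j ∈ range i', |ncp c i' GF (GF i' - GA) (bt F ω) j *
      (V (some (c j)) - dd (GF j) (bt F ω) V)| ≤ 2 * T := by
    intro j hj
    have hj1 := Finset.mem_range.1 hj
    rw [abs_mul]
    rcases Nat.eq_zero_or_pos j with h2 | h2
    · subst h2
      refine (mul_le_mul (hρ 0 hj1) cmp0 (abs_nonneg _) (Real.rpow_pos_of_pos (by norm_num) _).le).trans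
        ?_
      rw [← Real.rpow_add (by norm_num), hTd]
      have h3 := h0 i' h1i hi3
      have h4 : (ε + lt 0 - lt i') * J + -(J : ℝ) = (ε + (lt 0 - lt i' - 1)) * J := by ring
      rw [h4]
      have h5 := mono (show ε + (lt 0 - lt i' - 1) ≤ 2 * ε + φ - lv i' by linarith)
      have h6 : (0 : ℝ) < 2 ^ ((2 * ε + φ - lv i') * J) := Real.rpow_pos_of_pos (by norm_num) _
      linarith
    · refine (mul_le_mul (hρ j hj1) (cmp j h2 (by omega)) (abs_nonneg _)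
        (Real.rpow_pos_of_pos (by norm_num) _).le).trans ?_
      have h3 := hsl i' h1i hi3 j h2 hj1
      rw [show (2 : ℝ) ^ ((ε + lt j - lt i') * J) * (2 * 2 ^ ((ε - lv j) * J)) =
        2 * (2 ^ ((ε + lt j - lt i') * J) * 2 ^ ((ε - lv j) * J)) by ring,
        ← Real.rpow_add (by norm_num), hTd]
      refine mul_le_mul_of_nonneg_left ?_ (by norm_num)
      rw [show (ε + lt j - lt i') * J + (ε - lv j) * J = (2 * ε + (lt j - lt i' - lv j)) * J by ring]
      exact mono (by linarith)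
  rw [← hTd]
  calc _ ≤ 2 * T + ∑ _j ∈ range i', 2 * T :=
        (abs_add_le _ _).trans (add_le_add t0 ((Finset.abs_sum_le_sum_abs _ _).trans
          (Finset.sum_le_sum tj)))
    _ = 2 * T + i' * (2 * T) := by rw [Finset.sum_const, Finset.card_range, nsmul_eq_mul]
    _ ≤ 8 * T := by
        have h1 : (i' : ℝ) ≤ 3 := by exact_mod_cast hi3
        nlinarith

end Pool.T4I
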