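import Pool.Agent.H43.T4.Sys

/-!
# The images of the dichotomy for the numbers of the velocities

`stM`: the piece `PhM`, over natural affine labels at the windows of the blocks.
-/

set_option autoImplicit false

namespace Pool.T4I

open Finset Real MvPolynomial
open Pool.Agent.H49.Ent Pool.Agent.H32.Dense
open Pool.STK hiding pr2
open Pool.KA Pool.KSAT Pool.K2S Pool.PB Pool.S6C
open Pool.GEN Pool.CHT Pool.LA91 Pool.RCD Pool.AVG57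
open Pool.T4N (Frm FrmP fX IMN)
open Pool.T4H (FI1A FI2A)
open Pool.T4G (NrW)
open Pool.T4J (Lbx)
open Pool.T4X hiding cond_pos

/-- The loss of the digits above the block. -/
theorem ls_log {E : ℝ} (hE : 0 ≤ E) :
    3 * Real.log (2 * (8 * 2 ^ E + 6) + 1) ≤ 15 + 3 * Real.log 2 * E := by
  have hl2 : 0 < Real.log 2 := Real.log_pos (by norm_num)
  have hl1 : Real.log 2 ≤ 1 := by
    have := Real.log_le_sub_one_of_pos (show (0 : ℝ) < 2 by norm_num)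
    linarith
  have h1 : (1 : ℝ) ≤ 2 ^ E := Real.one_le_rpow (by norm_num) hE
  have h2 : Real.log (2 * (8 * 2 ^ E + 6) + 1) ≤ Real.log (2 ^ (5 : ℝ) * 2 ^ E) := by
    refine Real.log_le_log (by positivity) ?_
    have : (2 : ℝ) ^ (5 : ℝ) = 32 := by
      rw [show (5 : ℝ) = ((5 : ℕ) : ℝ) by norm_num, Real.rpow_natCast]
      norm_num
    rw [this]
    linarith
  rw [← Real.rpow_add (by norm_num), Real.log_rpow (by norm_num)] at h2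
  nlinarith

/-- The numbers: the loss of all steps. -/
theorem ls_fin {s η μ φ eq ρ υ h u C : ℝ} {A J : ℕ} (hs : 1 < s) (hη : 0 < η) (hφ0 : 0 < φ)
    (hφ : φ ≤ eq) (hC : 0 ≤ C) (h1 : (5 * s + 18 + C) * eq ≤ μ) (h2 : μ ≤ η / 8 * ρ)
    (hh : h = η / 8 * ρ) (hρ : 0 < ρ) (hυ : ρ ≤ υ) (hu : υ * J ≤ u + 1)
    (hJ : 2 * (3 * A + 35 + η) ≤ η * ρ * J) :
    (2 * (s * φ) + C * eq + h) * Real.log 2 * J +
      3 * Real.log (2 * (8 * 2 ^ ((μ / 50 + (s + 6) * φ) * J + (A + 4)) + 6) + 1) + 8 ≤ η * u := by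
  have hJ0 : (0 : ℝ) ≤ J := Nat.cast_nonneg J
  have hA0 : (0 : ℝ) ≤ A := Nat.cast_nonneg A
  have heq : 0 < eq := hφ0.trans_le hφ
  have hl2 : 0 < Real.log 2 := Real.log_pos (by norm_num)
  have hl1 : Real.log 2 ≤ 1 := by
    have := Real.log_le_sub_one_of_pos (show (0 : ℝ) < 2 by norm_num)
    linarith
  have hCe : 0 ≤ C * eq := by positivity
  have hse : 0 ≤ s * eq := by positivity
  have hsφ : s * φ ≤ s * eq := mul_le_mul_of_nonneg_left hφ (by linarith)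
  have hsφ0 : 0 ≤ s * φ := by positivity
  have hμ : 0 ≤ μ := by
    refine le_trans ?_ h1
    positivity
  have hE : 0 ≤ (μ / 50 + (s + 6) * φ) * J + (A + 4) := by positivity
  have g1 := ls_log hE
  obtain ⟨K, hK⟩ : ∃ K : ℝ, K = 2 * (s * φ) + C * eq + h + 3 * (μ / 50 + (s + 6) * φ) := ⟨_, rfl⟩
  have hh0 : 0 ≤ h := by
    rw [hh]
    positivity
  have hK0 : 0 ≤ K := by
    rw [hK]
    positivity
  have hK1 : K ≤ 3 * (η / 8) * ρ := by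
    rw [hK]
    nlinarith
  have g2 : Real.log 2 * (K * J) ≤ 1 * (K * J) :=
    mul_le_mul_of_nonneg_right hl1 (mul_nonneg hK0 hJ0)
  have g3 : K * J ≤ 3 * (η / 8) * ρ * J := mul_le_mul_of_nonneg_right hK1 hJ0
  have g4 : 3 * Real.log 2 * (A + 4) ≤ 3 * (A + 4) := by nlinarith
  have e1 : (2 * (s * φ) + C * eq + h) * Real.log 2 * J +
      3 * Real.log 2 * ((μ / 50 + (s + 6) * φ) * J + (A + 4)) =
      Real.log 2 * (K * J) + 3 * Real.log 2 * (A + 4) := by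
    rw [hK]
    ring
  have g5 : ρ * J ≤ u + 1 := (mul_le_mul_of_nonneg_right hυ hJ0).trans hu
  have g6 : η * (ρ * J) ≤ η * (u + 1) := mul_le_mul_of_nonneg_left g5 hη.le
  nlinarith

/-- **The images** (piece `PhM`). -/
theorem stM : StMw (fun X ε v _ F B Fr => Lbx X ε F B Fr v) := by
  classical
  intro s hr Γ hs _ _ hΓ hGA η ϖ hη hϖ
  have hA0 : 1 ≤ Γ.A 0 := hGA.1 0 (by norm_num) (by norm_num)
  have hA5 : 1 ≤ Γ.A 5 := hGA.1 5 (by norm_num) (by norm_num)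
  have hiC : 0 ≤ imC := zero_le_one.trans imC_one
  refine ⟨1, 0, one_pos, fun κ₀ T N₀ _ _ hT _ => ?_⟩
  obtain ⟨c₁, hc₁⟩ : ∃ c₁ : ℝ, c₁ = min (min (1 / s) ((s - 1) / 2)) (η / 8) := ⟨_, rfl⟩
  have hs0 : 0 < s - 1 := by linarith
  have hc0 : 0 < c₁ := by
    rw [hc₁]
    exact lt_min (lt_min (by positivity) (by positivity)) (by positivity)
  have hc1 : c₁ ≤ 1 / s := by
    rw [hc₁]
    exact (min_le_left _ _).trans (min_le_left _ _)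
  have hc2 : c₁ ≤ (s - 1) / 2 := by
    rw [hc₁]
    exact (min_le_left _ _).trans (min_le_right _ _)
  have hc3 : c₁ ≤ η / 8 := by
    rw [hc₁]
    exact min_le_right _ _
  refine ⟨s + T + 3, 5 * s + 18 + imC, c₁, hc0, ?_⟩
  intro Λ e hΛ he hec X hX μ w₂ hμ1 hμ2 _ _ _
  have hq0 := hX.box.u0
  have hρ := hX.ρ0
  have hφ0 := hX.box.lad.φ0
  have hφe := hX.φe
  have heq0 : 0 < e * X.q := mul_pos he hq0
  have hes : e * s ≤ 1 := by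
    have h1 : e ≤ 1 / s := hec.trans hc1
    rwa [le_div_iff₀ (by linarith)] at h1
  have he1 : e ≤ 1 := by nlinarith
  have hΛ1 : 1 ≤ Λ := by linarith
  have hμ0 : 0 ≤ μ := le_trans (by positivity) hμ1
  have hm1 : (1 : ℝ) ≤ Γ.m := by exact_mod_cast hΓ.m1
  have hυ : X.ρ ≤ Γ.m * X.ρ := le_mul_of_one_le_left hρ.le hm1
  have hsφ : s * X.φ ≤ s * (e * X.q) := mul_le_mul_of_nonneg_left hφe (by linarith)
  have hsφμ : s * X.φ ≤ μ := by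
    have h1 : 0 ≤ (4 * s + 18 + imC) * (e * X.q) := by positivity
    nlinarith
  have hμρ : 2 * μ ≤ (s - 1) * (Γ.m * X.ρ) := by
    have h1 : μ ≤ (s - 1) / 2 * X.ρ := hμ2.trans (mul_le_mul_of_nonneg_right hc2 hρ.le)
    have h2 : (s - 1) * X.ρ ≤ (s - 1) * (Γ.m * X.ρ) := mul_le_mul_of_nonneg_left hυ hs0.le
    linarith
  have hi₁ : Γ.i₁ ≤ Γ.L := hΓ.ij₁.le.trans hΓ.jL₁
  have hi₂ : Γ.i₂ ≤ Γ.L := hΓ.iL
  have hk₂ : Γ.k₂ ≤ Γ.L := by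
    have : Γ.k₂ ≤ Γ.i₂ := by
      rw [hΓ.ei₂]
      exact Nat.le_add_right _ _
    exact this.trans hi₂
  have D1 : SyD X s μ (Γ.m * X.ρ) (Γ.A 0) (X.x Γ.i₁) (X.x 0) := by
    refine ⟨hs, hA0, hX.gG _ hi₁, (x_tq hX (Nat.zero_le _)).1, ?_, (x_tq hX hi₁).2, by positivity,
      hsφμ, by linarith⟩
    unfold Cx.x
    rw [hΓ.ei₁]
    push_cast
    ring
  have D2 : SyD X s μ (Γ.m * X.ρ) (Γ.A 5) (X.x Γ.i₂) (X.x Γ.k₂) := by
    refine ⟨hs, hA5, hX.gG _ hi₂, (x_tq hX hk₂).1, ?_, (x_tq hX hi₂).2, by positivity,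
      hsφμ, by linarith⟩
    unfold Cx.x
    rw [hΓ.ei₂]
    push_cast
    ring
  obtain ⟨w1, hw1⟩ := win_ex D1 hX hΛ1
  obtain ⟨w2, hw2⟩ := win_ex D2 hX hΛ1
  obtain ⟨W, hW⟩ : ∃ W : Finset ℝ, W = (Finset.range (Γ.A 0 + 1)).image w1 ∪
    (Finset.range (Γ.A 5 + 1)).image w2 := ⟨_, rfl⟩
  have hW1 : ∀ j ≤ Γ.A 0, w1 j ∈ W := fun j hj => by
    rw [hW]
    exact Finset.mem_union_left _ (Finset.mem_image_of_mem _ (Finset.mem_range.2 (by omega)))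
  have hW2 : ∀ j ≤ Γ.A 5, w2 j ∈ W := fun j hj => by
    rw [hW]
    exact Finset.mem_union_right _ (Finset.mem_image_of_mem _ (Finset.mem_range.2 (by omega)))
  have hqΛ : X.q ≤ Λ * X.q := le_mul_of_one_le_left hq0.le hΛ1
  have hWG : ∀ v ∈ W, v ∈ X.G ∧ X.t ≤ v ∧ v ≤ X.t + Λ * X.q := by
    intro v hv
    rw [hW] at hv
    rcases Finset.mem_union.1 hv with h1 | h1
    · obtain ⟨j, hj, rfl⟩ := Finset.mem_image.1 h1
      obtain ⟨a1, a2, a3, -⟩ := hw1 j (by have := Finset.mem_range.1 hj; omega)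
      exact ⟨a1, D1.ty.trans a2, by linarith [D1.bq]⟩
    · obtain ⟨j, hj, rfl⟩ := Finset.mem_image.1 h1
      obtain ⟨a1, a2, a3, -⟩ := hw2 j (by have := Finset.mem_range.1 hj; omega)
      exact ⟨a1, D2.ty.trans a2, by linarith [D2.bq]⟩
  obtain ⟨h, hh⟩ : ∃ h : ℝ, h = η / 8 * X.ρ := ⟨_, rfl⟩
  have hh0 : 0 < h := by
    rw [hh]
    positivity
  obtain ⟨e₀, he₀, HI⟩ := imP_all hX he.le hϖ hh0 W hWG
  have hs0t := abs_le.1 (hX.s0 X.t hX.box.wG le_rfl (by linarith))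
  have hTq : 0 ≤ T * X.q := mul_nonneg hT hq0.le
  have heq1 : e * X.q ≤ X.q := mul_le_of_le_one_left hq0.le he1
  have hb0 := hX.box.b0
  have hbw := hX.box.bw
  obtain ⟨J₁, hJ₁⟩ := lP_six (X := X) (T := T) (by linarith [hs0t.1])
  obtain ⟨Am, hAm⟩ : ∃ Am, Am = Γ.A 0 + Γ.A 5 := ⟨_, rfl⟩
  have hA0m : (Γ.A 0 : ℝ) ≤ Am := by
    rw [hAm]
    exact_mod_cast Nat.le_add_right _ _
  have hA5m : (Γ.A 5 : ℝ) ≤ Am := by
    rw [hAm]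
    exact_mod_cast Nat.le_add_left _ _
  obtain ⟨J₂, hJ₂⟩ := exists_nat_ge (((Am : ℝ) + 4) / (4 * (e * X.q)))
  obtain ⟨J₃, hJ₃⟩ := exists_nat_ge (2 * (3 * (Am : ℝ) + 35 + η) / (η * X.ρ))
  refine ⟨e₀, he₀, W, hWG, Bas.mono (max 1 (max J₁ (max J₂ J₃))) HI ?_⟩
  intro J hJ F B h1 Fr k ν E hL
  have hJ1 : 1 ≤ J := (le_max_left _ _).trans hJ
  have hJ' := (le_max_right _ _).trans hJ
  have h6 := hJ₁ J ((le_max_left _ _).trans hJ')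
  have hJ2 : ((Am : ℝ) + 4) / (4 * (e * X.q)) ≤ J :=
    hJ₂.trans (by exact_mod_cast (le_max_left _ _).trans ((le_max_right _ _).trans hJ'))
  have hJ3 : 2 * (3 * (Am : ℝ) + 35 + η) / (η * X.ρ) ≤ J :=
    hJ₃.trans (by exact_mod_cast (le_max_right _ _).trans ((le_max_right _ _).trans hJ'))
  rw [div_le_iff₀ (by positivity)] at hJ2 hJ3
  have him := h1 Fr E.fr
  have nm := E.nm
  have hJ0 : (0 : ℝ) ≤ J := Nat.cast_nonneg J
  have hφJ : 0 ≤ 2 * X.φ * J := by positivity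
  have N1 : SyN X μ (Γ.m * X.ρ) (Γ.A 0) (X.x Γ.i₁) J ν.u ν.g := by
    refine ⟨nm.uu, nm.ul, fun i => ?_, fun i => ?_⟩
    · have h2 : (ν.g i : ℝ) ≤ (X.sn (1 + i) (X.x Γ.i₁) - μ) * J := nm.gb i
      linarith
    · have h2 : (X.sn (1 + i) (X.x Γ.i₁) - μ) * J ≤ ν.g i + Γ.A 0 + 2 := nm.gb' i
      linarith
  have N2 : SyN X μ (Γ.m * X.ρ) (Γ.A 5) (X.x Γ.i₂) J ν.u ν.g₂ :=
    ⟨nm.uu, nm.ul, fun i => nm.gb₂ i, fun i => nm.gb₂' i⟩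
  have hls : ∀ A : ℕ, (A : ℝ) ≤ Am → (2 * (s * X.φ) + imC * (e * X.q) + h) * Real.log 2 * J +
      3 * Real.log (2 * (8 * 2 ^ lE X s μ A J + 6) + 1) + 8 ≤ η * ν.u := by
    intro A hA
    exact ls_fin hs hη hφ0 hφe hiC hμ1 (hμ2.trans (mul_le_mul_of_nonneg_right hc3 hρ.le)) hh hρ hυ
      nm.ul (by linarith)
  have E1 : SyE X s hr T N₀ Λ e κ₀ μ (Γ.m * X.ρ) (X.x Γ.i₁) (X.x 0) ϖ h η Γ.L (Γ.A 0) F B Fr e₀ k
      ν.u ν.g w1 :=
    ⟨D1, hX, he1, hT, hΛ, hes, hμ0, N1, hw1, E.pos, E.fr, fun j hj => hL _ (hW1 j hj),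
      fun j hj => him _ (hW1 j hj), E.off, h6, hJ1, by linarith, hls _ hA0m⟩
  have E2 : SyE X s hr T N₀ Λ e κ₀ μ (Γ.m * X.ρ) (X.x Γ.i₂) (X.x Γ.k₂) ϖ h η Γ.L (Γ.A 5) F B Fr e₀
      k ν.u ν.g₂ w2 :=
    ⟨D2, hX, he1, hT, hΛ, hes, hμ0, N2, hw2, E.pos, E.fr, fun j hj => hL _ (hW2 j hj),
      fun j hj => him _ (hW2 j hj), E.off, h6, hJ1, by linarith, hls _ hA5m⟩
  have ea : ν.a = ⌊X.x 0 * J⌋₊ := nm.ea
  have ea₂ : ν.a₂ = ⌊X.x Γ.k₂ * J⌋₊ := nm.ea₂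
  refine ⟨fun z hz => ⟨?_, ?_⟩, fun z hz => ?_⟩
  · have h2 := fi1_sys E1 (w₂ := w₂) hz (Γ.A 2) (Γ.A 3 * ν.u)
    rw [← ea] at h2
    have e1 : (((Γ.A 2 * ν.u : ℕ) : ℝ) - (Γ.A 3 * ν.u : ℕ)) * Real.log 2 - η * ν.u =
        ((Γ.A 2 : ℝ) - Γ.A 3) * ν.u * Real.log 2 - η * ν.u := by
      push_cast
      ring
    rw [e1] at h2
    exact h2
  · have h2 := fi2_sys E1 (w₂ := w₂) hz 1
    rw [← ea, one_mul, Nat.div_one] at h2
    exact h2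
  · have h2 := fi1_sys E2 (w₂ := w₂) hz (Γ.A 7) (Γ.A 8 * ν.u)
    rw [← ea₂] at h2
    have e1 : (((Γ.A 7 * ν.u : ℕ) : ℝ) - (Γ.A 8 * ν.u : ℕ)) * Real.log 2 - η * ν.u =
        ((Γ.A 7 : ℝ) - Γ.A 8) * ν.u * Real.log 2 - η * ν.u := by
      push_cast
      ring
    rw [e1] at h2
    exact h2

end Pool.T4I
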