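import Pool.Agent.H43.T4.Img1
import Pool.Agent.H43.T4.Nrl
import Pool.Agent.H48.T4X.Evw

/-!
# The images of a block of one system

`SyD`, `SyN`: the windows and the numbers of one system. `win_ex`: the windows of the blocks. `blkD_of`:
the data of a block from the labels of its window. `fi1_sys`, `fi2_sys`: the images of all blocks on
one event.
-/

set_option autoImplicit false

namespace Pool.T4I

open Finset Real MvPolynomial
open Pool.Agent.H49.Ent Pool.Agent.H32.Dense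
open Pool.STK hiding pr2
open Pool.KA Pool.KSAT Pool.K2S Pool.PB Pool.S6C
open Pool.GEN Pool.CHT Pool.LA91 Pool.RCD Pool.AVG57
open Pool.UNJ (ceI)
open Pool.V0F (cR)
open Pool.T4N (Frm FrmP fX IMN)
open Pool.T4H (FI1A FI2A FI1On FI2On dg tp)
open Pool.T4G (NrW)
open Pool.T4J (Lbx frG cR_pt)
open Pool.DIR16 (Pe_cc cond_cc)
open Pool.T4X hiding cond_pos

/-- The subevents of a conditional law. -/
theorem sub_law {Ω : Type} [Fintype Ω] {p : Ω → ℝ} (hp : IsLaw p) {B G : Ω → Prop}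
    (hB : 0 < Pe p B) {ϖ : ℝ} (h1 : ϖ ≤ Pe (Pool.Agent.H49.Ent.cond p B True) G)
    (h2 : 0 < Pe (Pool.Agent.H49.Ent.cond p B True) G) :
    Pool.Agent.H49.Ent.cond (Pool.Agent.H49.Ent.cond p B True) G True =
        Pool.Agent.H49.Ent.cond p (fun ω => (B ω ∧ G ω) ∧ 0 < p ω) True ∧
      ϖ * Pe p B ≤ Pe p (fun ω => (B ω ∧ G ω) ∧ 0 < p ω) ∧
      0 < Pe p (fun ω => (B ω ∧ G ω) ∧ 0 < p ω) := by
  obtain ⟨e1, e2⟩ := cond_pos hp.nonneg fun ω => B ω ∧ G ω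
  rw [e1, e2, cond_cc hB, Pe_cc hB]
  refine ⟨rfl, ?_, mul_pos hB h2⟩
  rw [mul_comm (Pe p B)]
  exact mul_le_mul_of_nonneg_right h1 hB.le

/-- **The windows of one system**: `b` the record, `y₀` the base window, `A` units `υ`. -/
structure SyD (X : Cx) (s μ υ : ℝ) (A : ℕ) (b y₀ : ℝ) : Prop where
  s1 : 1 < s
  A1 : 1 ≤ A
  bG : b ∈ X.G
  ty : X.t ≤ y₀
  ba : b = y₀ + A * υ
  bq : b ≤ X.t + X.q
  υ0 : 0 < υ
  mφ : s * X.φ ≤ μ
  mυ : μ + s * X.φ ≤ (s - 1) * υ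

/-- **The numbers of one system.** -/
structure SyN (X : Cx) (μ υ : ℝ) (A : ℕ) (b : ℝ) (J u : ℕ) (g : Fin 3 → ℕ) : Prop where
  uu : (u : ℝ) ≤ υ * J
  ul : υ * J ≤ u + 1
  gb : ∀ i : Fin 3, (g i : ℝ) ≤ (X.sn (1 + i) b - μ + 2 * X.φ) * J
  gb' : ∀ i : Fin 3, (X.sn (1 + i) b - μ - 2 * X.φ) * J ≤ g i + A + 4

section

variable {X : Cx} {s hr T N₀ Λ e κ₀ μ υ b y₀ : ℝ} {L A : ℕ}

theorem SyD.yb (H : SyD X s μ υ A b y₀) : y₀ ≤ b := by
  have := H.υ0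
  rw [H.ba]
  have h : 0 ≤ (A : ℝ) * υ := by positivity
  linarith

/-- **The windows of the blocks.** -/
theorem win_ex (H : SyD X s μ υ A b y₀) (hX : X.Ok s hr T N₀ Λ e κ₀ L) (hΛ : 1 ≤ Λ) :
    ∃ w : ℕ → ℝ, ∀ j ≤ A, w j ∈ X.G ∧ y₀ ≤ w j ∧ w j ≤ b ∧
      |s * (w j - b) + μ + j * υ| ≤ s * X.φ := by
  classical
  have hs := H.s1
  have hs0 : 0 < s := by linarith
  have hυ := H.υ0
  have hφ := hX.box.lad.φ0
  have h1 : ∀ j : ℕ, ∃ w : ℝ, j ≤ A → w ∈ X.G ∧ y₀ ≤ w ∧ w ≤ b ∧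
      |s * (w - b) + μ + j * υ| ≤ s * X.φ := by
    intro j
    by_cases hj : j ≤ A
    · have hj' : (j : ℝ) ≤ A := by exact_mod_cast hj
      have hA1 : (1 : ℝ) ≤ A := by exact_mod_cast H.A1
      obtain ⟨z, hz⟩ : ∃ z, z = b - (μ + j * υ) / s := ⟨_, rfl⟩
      have hz1 : s * (z - b) = -(μ + j * υ) := by
        rw [hz]
        field_simp
        ring
      have hjυ : (j : ℝ) * υ ≤ A * υ := mul_le_mul_of_nonneg_right hj' hυ.le
      have hj0 : 0 ≤ (j : ℝ) * υ := by positivity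
      have hAυ : (s - 1) * υ ≤ (s - 1) * (A * υ) :=
        mul_le_mul_of_nonneg_left (le_mul_of_one_le_left hυ.le hA1) (by linarith)
      have z1 : y₀ + X.φ ≤ z := by
        have h2 : s * (y₀ + X.φ - b) ≤ s * (z - b) := by
          rw [hz1, H.ba]
          have := H.mυ
          nlinarith
        have h3 := le_of_mul_le_mul_left h2 hs0
        linarith
      have z2 : z ≤ b - X.φ := by
        have h2 : s * (z - b) ≤ s * (-X.φ) := by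
          rw [hz1]
          have := H.mφ
          linarith
        have h3 := le_of_mul_le_mul_left h2 hs0
        linarith
      have hbt : X.b ≤ X.t := by
        have h4 := hX.box.bw
        have h5 := mul_nonneg (zero_le_one.trans hΛ) hX.box.u0.le
        linarith
      have hq : X.q ≤ Λ * X.q := le_mul_of_one_le_left hX.box.u0.le hΛ
      have hwo := hX.box.wo
      have hbq := H.bq
      have hty := H.ty
      obtain ⟨w, hw, h5⟩ := hX.box.lad.gap z (by linarith) (by linarith)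
      have h6 := abs_le.1 h5
      refine ⟨w, fun _ => ⟨hw, by linarith [h6.1], by linarith [h6.2], ?_⟩⟩
      have e1 : s * (w - b) + μ + j * υ = s * (w - z) := by
        have : s * (w - b) = s * (w - z) + s * (z - b) := by ring
        rw [this, hz1]
        ring
      rw [e1, abs_mul, abs_of_pos hs0]
      exact mul_le_mul_of_nonneg_left h5 hs0.le
    · exact ⟨0, fun h => absurd h hj⟩
  choose w hw using h1
  exact ⟨w, hw⟩

/-- **The units at one window.** -/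
theorem win_u (H : SyD X s μ υ A b y₀) (hX : X.Ok s hr T N₀ Λ e κ₀ L) (hΛ : 1 ≤ Λ) {J u : ℕ}
    {g : Fin 3 → ℕ} (N : SyN X μ υ A b J u g) {w : ℝ} (hw : w ∈ X.G) (h1 : y₀ ≤ w) (h2 : w ≤ b)
    {j : ℕ} (hj : j ≤ A) (l : Fin 3) :
    |(g l : ℝ) - j * u - (X.sn (1 + l) w - (s * (w - b) + μ + j * υ)) * J| ≤
      4 * X.φ * J + (A + 4) := by
  have hl := l.2
  have hJ : (0 : ℝ) ≤ J := Nat.cast_nonneg J
  have hbt : X.b ≤ X.t := by
    have h4 := hX.box.bw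
    have h5 := mul_nonneg (zero_le_one.trans hΛ) hX.box.u0.le
    linarith
  have hq : X.q ≤ Λ * X.q := le_mul_of_one_le_left hX.box.u0.le hΛ
  have hwo := hX.box.wo
  have hbq := H.bq
  have hty := H.ty
  have e1 := abs_le.1 (hX.box.lin (1 + l) (by omega) (by omega) w hw (by linarith) (by linarith))
  have e2 := abs_le.1 (hX.box.lin (1 + l) (by omega) (by omega) b H.bG (by linarith) (by linarith))
  have g1 := N.gb l
  have g2 := N.gb' l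
  have hj' : (j : ℝ) ≤ A := by exact_mod_cast hj
  have j0 : (0 : ℝ) ≤ j := Nat.cast_nonneg j
  have u1 : (j : ℝ) * u ≤ j * (υ * J) := mul_le_mul_of_nonneg_left N.uu j0
  have u2 : (j : ℝ) * (υ * J) ≤ j * (u + 1) := mul_le_mul_of_nonneg_left N.ul j0
  have d1 : (X.sn (1 + l) w - X.sn (1 + l) b - s * (w - b)) * J ≤ 2 * X.φ * J :=
    mul_le_mul_of_nonneg_right (by linarith [e1.1, e1.2, e2.1, e2.2]) hJ
  have d2 : -(2 * X.φ) * J ≤ (X.sn (1 + l) w - X.sn (1 + l) b - s * (w - b)) * J :=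
    mul_le_mul_of_nonneg_right (by linarith [e1.1, e1.2, e2.1, e2.2]) hJ
  rw [abs_le]
  constructor <;> nlinarith

end

/-- The exponent of the near readings. -/
noncomputable def lE (X : Cx) (s μ : ℝ) (A J : ℕ) : ℝ := (μ / 50 + (s + 6) * X.φ) * J + (A + 4)

/-- The digits of the position of `c 0`. -/
theorem ce_near {m J : ℕ} {F : Fam m J} {c : ℕ → Fin m} {ω ω' : F.Ω}
    (h : ceI ((range 1).image c) (fun _ => J) (F.x ω) = ceI ((range 1).image c) (fun _ => J) (F.x ω')) :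
    |F.x ω (c 0) - F.x ω' (c 0)| ≤ 1 / 2 ^ J := by
  have hm : c 0 ∈ (range 1).image c := Finset.mem_image_of_mem c (Finset.mem_range.2 one_pos)
  have h1 := congrFun h (c 0)
  unfold ceI at h1
  rw [if_pos hm, if_pos hm] at h1
  exact near_fl' h1

section

variable {X : Cx} {s hr T N₀ Λ e κ₀ μ υ b y₀ : ℝ} {L A : ℕ}

/-- **The data of a block** from the labels of its window. -/
theorem blkD_of (H : SyD X s μ υ A b y₀) (hX : X.Ok s hr T N₀ Λ e κ₀ L)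
    (he1 : e ≤ 1) (hT : 0 ≤ T) (hΛ : s + T + 3 ≤ Λ) (hμ : 0 ≤ μ) {J u : ℕ} {g : Fin 3 → ℕ}
    (N : SyN X μ υ A b J u g) {w : ℝ} (hw : w ∈ X.G) (h1 : y₀ ≤ w) (h2 : w ≤ b) {j : ℕ}
    (hj : j ≤ A) (h3 : |s * (w - b) + μ + j * υ| ≤ s * X.φ) {F : Fam 4 J} {B G : F.Ω → Prop}
    {Fr : Frm F} {e₀ : ℝ} (hFr : FrmP F X.c (lw X J) (lp X e₀ J) B Fr)
    (hL : Lbx X (μ / 100) F B Fr w) {k : ℕ} (off : ∀ ω, B ω → ¬ NrW 2 (lY X T F k ω))
    (h6 : 6 ≤ lP X T J) {w₂ : ℝ} (hGB : Sub G B) (hG : 0 < Pe F.p G) {z : F.Ω → Fin 3 → ℤ}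
    (hz : ∀ ω, B ω → ∀ i, |(z ω i : ℝ) - 2 ^ g i * fX F X.c (lw X J) Fr ω i| ≤ 2) {x i : ℕ}
    (hx : (i + 1) * x = j * u) :
    ∃ (U : Type) (qp : PtT F → U) (q' : LnT F → U), BlkD F B G (lFp F B w₂) z (lYb X T F B k y₀)
      (fun ω l => 2 ^ g l * fX F X.c (lw X J) Fr ω l) ((range 1).image X.c) w qp q' ⌊y₀ * J⌋₊
      ((i + 1) * x) (8 * 2 ^ lE X s μ A J) := by
  have hs := H.s1
  have hJ : (0 : ℝ) ≤ J := Nat.cast_nonneg J
  have hq0 := hX.box.u0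
  have hΛ1 : 1 ≤ Λ := by linarith
  have hφ := hX.box.lad.φ0
  have hΛq : (s + T + 3) * X.q ≤ Λ * X.q := mul_le_mul_of_nonneg_right hΛ hq0.le
  have hTq : 0 ≤ T * X.q := mul_nonneg hT hq0.le
  have hsq : X.q ≤ s * X.q := le_mul_of_one_le_left hq0.le hs.le
  have heq : e * X.q ≤ X.q := mul_le_of_le_one_left hq0.le he1
  have hbt : X.b ≤ X.t := by
    have h4 := hX.box.bw
    linarith
  have hwo := hX.box.wo
  have ho1 := hX.box.o1
  have hbq := H.bq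
  have hty := H.ty
  have hsw : s * (w - X.t) ≤ s * X.q := mul_le_mul_of_nonneg_left (by linarith) (by linarith)
  have hlin : ∀ l, 1 ≤ l → l ≤ 3 → |X.sn l w - X.sn l X.t - s * (w - X.t)| ≤ X.φ := fun l g1 g2 =>
    hX.box.lin l g1 g2 w hw (by linarith) (by linarith)
  have hs0 := abs_le.1 (hX.s0 X.t hX.box.wG le_rfl (by linarith))
  have hw1 : w ≤ 1 := by linarith
  have hJw : ⌊w * (J : ℝ)⌋₊ ≤ J := by
    refine (Nat.floor_le_floor (mul_le_mul_of_nonneg_right hw1 hJ)).trans ?_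
    rw [one_mul, Nat.floor_natCast]
  have hlw : ∀ i : Fin 3, lw X J i ≤ ⌊w * (J : ℝ)⌋₊ := fun i =>
    Nat.floor_le_floor (mul_le_mul_of_nonneg_right ((hX.fr i i.2).1.trans (hty.trans h1)) hJ)
  have hPJ : lP X T J ≤ J := by
    unfold lP
    refine (Nat.floor_le_floor (mul_le_mul_of_nonneg_right
      (show X.sn 0 X.t + T * X.q ≤ 1 by linarith [hs0.2]) hJ)).trans ?_
    rw [one_mul, Nat.floor_natCast]
  obtain ⟨⟨GB, HB, hLN⟩, -⟩ := hL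
  obtain ⟨qp, hqp⟩ : ∃ qp : PtT F → (Fin 3 → MvPolynomial (Option (Fin 4)) ℝ) × (∀ i, Fr.V i),
      qp = fun y => (fun i : Fin 3 => GB y (1 + i), fun i => Fr.z i y) := ⟨_, rfl⟩
  obtain ⟨q', hq'⟩ : ∃ q' : LnT F → (Fin 3 → MvPolynomial (Option (Fin 4)) ℝ) × (∀ i, Fr.V i),
      q' = fun y => (fun i : Fin 3 => HB y (1 + i),
        fun i => Fr.z' i (upw (lw X J i) ⌊w * (J : ℝ)⌋₊ y)) := ⟨_, rfl⟩
  have cq : ∀ ω, G ω → qp (ptr F J ω) = q' (slam F ⌊w * J⌋₊ ω) := by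
    intro ω hω
    rw [hqp, hq']
    refine Prod.ext ?_ ?_
    · funext i
      have hi := i.2
      exact hLN.cls ω (hGB ω hω) (1 + i) (by omega) (by omega)
    · funext i
      show Fr.z i (ptr F J ω) = Fr.z' i (upw (lw X J i) ⌊w * (J : ℝ)⌋₊ (slam F ⌊w * J⌋₊ ω))
      rw [upw_slam F (hlw i) hJw, (hFr.lab i).cls ω (hGB ω hω)]
  refine ⟨_, qp, q', hGB, hG, fun ω ω' hω hω' e1 => Prod.ext (cR_pt hω hω' e1)
    (Prod.ext_iff.1 e1).2, fun ω hω l => hz ω (hGB ω hω) l,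
    Nat.floor_le_floor (mul_le_mul_of_nonneg_right h1 hJ), hJw, cq, ?_, ?_⟩
  · intro ω ω' hω hω' ec eq eW l
    have hl := l.2
    rw [← cq ω hω, ← cq ω' hω', hqp] at eq
    have eT : F.T ω = F.T ω' := (Prod.ext_iff.1 eW).1
    have eG : ∀ i : Fin 3, Fr.z i (ptr F J ω) = Fr.z i (ptr F J ω') := fun i =>
      congrFun (Prod.ext_iff.1 eq).2 i
    have eB : ∀ l, 1 ≤ l → l ≤ 3 → GB (ptr F J ω) l = GB (ptr F J ω') l := by
      intro l h1 h2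
      obtain ⟨i, hi⟩ : ∃ i : Fin 3, 1 + (i : ℕ) = l := ⟨⟨l - 1, by omega⟩, by simp; omega⟩
      rw [← hi]
      exact congrFun (Prod.ext_iff.1 eq).1 i
    have hx' : |F.x ω (X.c 0) - F.x ω' (X.c 0)| ≤ (2 : ℝ) ^ (-(J : ℝ)) := by
      rw [Real.rpow_neg (by norm_num), Real.rpow_natCast, ← one_div]
      exact ce_near ec
    have hn := fx_near (φ := 2 * X.φ) hX.box.lad.inj hFr hLN (by linarith) (by linarith) ?_ ?_
      (hGB ω hω) (hGB ω' hω') eT eG eB hx' l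
    · show |2 ^ g l * fX F X.c (lw X J) Fr ω l - 2 ^ g l * fX F X.c (lw X J) Fr ω' l| ≤ _
      rw [← mul_sub, abs_mul, abs_of_pos (by positivity : (0 : ℝ) < 2 ^ g l)]
      refine (mul_le_mul_of_nonneg_left hn (by positivity)).trans ?_
      have hu := abs_le.1 (win_u H hX hΛ1 N hw h1 h2 hj l)
      have h3' := (abs_le.1 h3)
      have h7 : (s * (w - b) + μ + j * υ) * J ≤ s * X.φ * J := mul_le_mul_of_nonneg_right h3'.2 hJ
      have h8 : -(s * X.φ) * J ≤ (s * (w - b) + μ + j * υ) * J :=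
        mul_le_mul_of_nonneg_right h3'.1 hJ
      have e2 : (2 : ℝ) ^ g l * (8 * 2 ^ ((2 * (μ / 100) + 2 * X.φ - X.sn (1 + l) w) * J)) =
          8 * 2 ^ ((g l : ℝ) + (2 * (μ / 100) + 2 * X.φ - X.sn (1 + l) w) * J) := by
        rw [Real.rpow_add (by norm_num), Real.rpow_natCast]
        ring
      have e3 : 8 * (2 : ℝ) ^ lE X s μ A J * 2 ^ ((i + 1) * x) =
          8 * 2 ^ (lE X s μ A J + (j : ℝ) * u) := by
        rw [Real.rpow_add (by norm_num), hx]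
        have : (2 : ℝ) ^ ((j : ℝ) * u) = 2 ^ (j * u) := by
          rw [← Nat.cast_mul, Real.rpow_natCast]
        rw [this]
        ring
      rw [e2, e3]
      refine mul_le_mul_of_nonneg_left (Real.rpow_le_rpow_of_exponent_le (by norm_num) ?_)
        (by norm_num)
      unfold lE
      nlinarith [hu.2, h8]
    · intro i h4 h5 j h8 h9
      have c1 := abs_le.1 (hlin i h4 h5)
      have c2 := abs_le.1 (hlin j h8 (by omega))
      show X.sn j X.t - X.sn i X.t - X.sn j w ≤ 2 * X.φ - X.sn i w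
      linarith [c1.1, c1.2, c2.1, c2.2]
    · intro i h4 h5
      have c1 := abs_le.1 (hlin i h4 h5)
      show X.sn 0 X.t - X.sn i X.t - 1 ≤ 2 * X.φ - X.sn i w
      linarith [c1.1, c1.2, hs0.2]
  · intro ω ω' hω hω' ec eR eW
    refine Prod.ext (lY_near h6 (off ω (hGB ω hω)) ((ce_near ec).trans ?_))
      (Prod.ext (cR_mn h1 hw1 eR) eW)
    refine (five_le (hPJ.trans (Nat.le_add_right J 2))).trans
      (div_le_div_of_nonneg_right (by norm_num) (by positivity))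

end

/-! ### The images of all blocks on one event -/

/-- **The images at the window `w`** on one event, in integer units. -/
def ImP (X : Cx) (Λ e ϖ h w : ℝ) {J : ℕ} (F : Fam 4 J) (B : F.Ω → Prop) (Fr : Frm F) : Prop :=
  ∀ G : F.Ω → Prop, Sub G B → ϖ * Pe F.p B ≤ Pe F.p G →
  ∀ (g : Fin 3 → ℕ) (s : ℕ) (M : ℝ), M ≤ Λ * X.q →
    (∀ l : Fin 3, |(g l : ℝ) - s - (X.sn (1 + l) w + M) * J| ≤ 8 * (e * X.q) * J) →
    Im1 F G ((range 1).image X.c) w (fun ω l => 2 ^ g l * fX F X.c (lw X J) Fr ω l) s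
        ((M - imC * (e * X.q) - h) * Real.log 2 * J) ∧
      Im2 F G ((range 1).image X.c) w (fun ω l => 2 ^ g l * fX F X.c (lw X J) Fr ω l) s
        ((2 * M - imC * (e * X.q) - h) * Real.log 2 * J)

theorem frm_le {X : Cx} {J : ℕ} {F : Fam 4 J} {B : F.Ω → Prop} {Fr : Frm F} {e₀ e₁ : ℝ}
    (h : FrmP F X.c (lw X J) (lp X e₀ J) B Fr) (he : e₀ ≤ e₁) :
    FrmP F X.c (lw X J) (lp X e₁ J) B Fr :=
  ⟨fun i => (h.lab i).mono (Finset.Subset.refl _) le_rfl (Nat.floor_le_floor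
    (mul_le_mul_of_nonneg_right (by linarith) (Nat.cast_nonneg J))), h.cut⟩

theorem imP_ex {X : Cx} {s hr T N₀ Λ e κ₀ : ℝ} {L : ℕ} (hX : X.Ok s hr T N₀ Λ e κ₀ L)
    (he : 0 ≤ e) {ϖ h : ℝ} (hϖ : 0 < ϖ) (hh : 0 < h) {w : ℝ} (hw : w ∈ X.G) (h1 : X.t ≤ w)
    (h2 : w ≤ X.t + Λ * X.q) : ∃ e₀ : ℝ, 0 < e₀ ∧ Bas X.S (fun J F B => ∀ Fr : Frm F,
      FrmP F X.c (lw X J) (lp X e₀ J) B Fr → ImP X Λ e ϖ h w F B Fr) := by
  have hκ : 0 ≤ e * X.q := mul_nonneg he hX.box.u0.le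
  obtain ⟨e₁, he₁, H1⟩ := im1_of (hX.im w hw h1 h2) hκ hh hϖ
  obtain ⟨e₂, he₂, H2⟩ := im2_of (hX.im w hw h1 h2) hκ hh hϖ
  refine ⟨min e₁ e₂, lt_min he₁ he₂, Bas.mono 0 (H1.and H2) ?_⟩
  rintro J - F B ⟨k1, k2⟩ Fr hFr G hGB hP g s M hM hg
  exact ⟨k1 Fr (frm_le hFr (min_le_left _ _)) G hGB hP g s M hM hg,
    k2 Fr (frm_le hFr (min_le_right _ _)) G hGB hP g s M hM hg⟩

theorem imP_all {X : Cx} {s hr T N₀ Λ e κ₀ : ℝ} {L : ℕ} (hX : X.Ok s hr T N₀ Λ e κ₀ L)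
    (he : 0 ≤ e) {ϖ h : ℝ} (hϖ : 0 < ϖ) (hh : 0 < h) (W : Finset ℝ) :
    (∀ w ∈ W, w ∈ X.G ∧ X.t ≤ w ∧ w ≤ X.t + Λ * X.q) →
    ∃ e₀ : ℝ, 0 < e₀ ∧ Bas X.S (fun J F B => ∀ Fr : Frm F,
      FrmP F X.c (lw X J) (lp X e₀ J) B Fr → ∀ w ∈ W, ImP X Λ e ϖ h w F B Fr) := by
  classical
  refine Finset.induction_on W ?_ ?_
  · intro _
    exact ⟨1, one_pos, 1, one_pos, 0, fun J _ F B _ Fr _ w hw => absurd hw (Finset.notMem_empty w)⟩
  · intro w W _ ih hW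
    obtain ⟨e₁, he₁, H1⟩ := ih fun v hv => hW v (Finset.mem_insert_of_mem hv)
    obtain ⟨h1, h2, h3⟩ := hW w (Finset.mem_insert_self w W)
    obtain ⟨e₂, he₂, H2⟩ := imP_ex hX he hϖ hh h1 h2 h3
    refine ⟨min e₁ e₂, lt_min he₁ he₂, Bas.mono 0 (H1.and H2) ?_⟩
    rintro J - F B ⟨k1, k2⟩ Fr hFr v hv
    rcases Finset.mem_insert.1 hv with h4 | h4
    · rw [h4]
      exact k2 Fr (frm_le hFr (min_le_right _ _))
    · exact k1 Fr (frm_le hFr (min_le_left _ _)) v h4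

theorem log_100 : Real.log 100 ≤ 8 := by
  rw [Real.log_le_iff_le_exp (by norm_num)]
  have h1 := Real.exp_one_gt_d9
  have h2 : Real.exp 8 = Real.exp 1 ^ 8 := by
    rw [← Real.exp_nat_mul]
    norm_num
  rw [h2]
  have h3 : (2 : ℝ) ^ 8 ≤ Real.exp 1 ^ 8 := pow_le_pow_left₀ (by norm_num) (by linarith) 8
  norm_num at h3
  linarith

theorem log_33 : 2 * Real.log 33 ≤ 8 := by
  have h0 : Real.log 33 ≤ 4 := by
    rw [Real.log_le_iff_le_exp (by norm_num)]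
    have h1 := Real.exp_one_gt_d9
    have h2 : Real.exp 4 = Real.exp 1 ^ 4 := by
      rw [← Real.exp_nat_mul]
      norm_num
    rw [h2]
    have h3 : (2.7 : ℝ) ^ 4 ≤ Real.exp 1 ^ 4 := pow_le_pow_left₀ (by norm_num) (by linarith) 4
    norm_num at h3
    linarith
  linarith

/-- **One system on one event**: what the images need. -/
structure SyE (X : Cx) (s hr T N₀ Λ e κ₀ μ υ b y₀ ϖ h η : ℝ) (L A : ℕ) {J : ℕ} (F : Fam 4 J)
    (B : F.Ω → Prop) (Fr : Frm F) (e₀ : ℝ) (k u : ℕ) (g : Fin 3 → ℕ) (w : ℕ → ℝ) : Prop where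
  sd : SyD X s μ υ A b y₀
  ok : X.Ok s hr T N₀ Λ e κ₀ L
  e1 : e ≤ 1
  T0 : 0 ≤ T
  Λ1 : s + T + 3 ≤ Λ
  es : e * s ≤ 1
  μ0 : 0 ≤ μ
  nm : SyN X μ υ A b J u g
  wn : ∀ j ≤ A, w j ∈ X.G ∧ y₀ ≤ w j ∧ w j ≤ b ∧ |s * (w j - b) + μ + j * υ| ≤ s * X.φ
  pos : 0 < Pe F.p B
  fr : FrmP F X.c (lw X J) (lp X e₀ J) B Fr
  lb : ∀ j ≤ A, Lbx X (μ / 100) F B Fr (w j)
  im : ∀ j ≤ A, ImP X Λ e ϖ h (w j) F B Fr
  off : ∀ ω, B ω → ¬ NrW 2 (lY X T F k ω)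
  h6 : 6 ≤ lP X T J
  J0 : 0 < J
  JA : (A : ℝ) + 4 ≤ 4 * (e * X.q) * J
  ls : (2 * (s * X.φ) + imC * (e * X.q) + h) * Real.log 2 * J +
    3 * Real.log (2 * (8 * 2 ^ lE X s μ A J + 6) + 1) + 8 ≤ η * u

section

variable {X : Cx} {s hr T N₀ Λ e κ₀ μ υ b y₀ ϖ h η : ℝ} {L A J : ℕ} {F : Fam 4 J}
  {B : F.Ω → Prop} {Fr : Frm F} {e₀ : ℝ} {k u : ℕ} {g : Fin 3 → ℕ} {w : ℕ → ℝ}

/-- The number of digits of a block behind natural at its window. -/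
theorem SyE.geo (E : SyE X s hr T N₀ Λ e κ₀ μ υ b y₀ ϖ h η L A F B Fr e₀ k u g w) {r i : ℕ}
    (hi : (i + 1) * r ≤ A) {t : ℕ} {M : ℝ}
    (hM : M * J = (r * u : ℕ) - t - (s * (w ((i + 1) * r) - b) + μ + ((i + 1) * r : ℕ) * υ) * J) :
    M ≤ Λ * X.q ∧ ∀ l : Fin 3, |(g l : ℝ) - (i * (r * u) + t : ℕ) -
      (X.sn (1 + l) (w ((i + 1) * r)) + M) * J| ≤ 8 * (e * X.q) * J := by
  obtain ⟨j, hj⟩ : ∃ j, j = (i + 1) * r := ⟨_, rfl⟩
  rw [← hj] at hi hM ⊢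
  obtain ⟨w1, w2, w3, w4⟩ := E.wn j hi
  have hJ0 : (0 : ℝ) < J := by exact_mod_cast E.J0
  have hs := E.sd.s1
  have hq0 := E.ok.box.u0
  have hφ0 := E.ok.box.lad.φ0
  have hφe := E.ok.φe
  have hΛ1 : 1 ≤ Λ := by linarith [E.Λ1, E.T0]
  have w4' := abs_le.1 w4
  constructor
  · have h1 : (r : ℝ) * u ≤ A * (υ * J) := by
      have h2 : r ≤ A := by
        have : r ≤ (i + 1) * r := Nat.le_mul_of_pos_left r (Nat.succ_pos i)
        omega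
      have h3 : (r : ℝ) ≤ A := by exact_mod_cast h2
      exact mul_le_mul h3 E.nm.uu (Nat.cast_nonneg u) (Nat.cast_nonneg A)
    have h4 : (A : ℝ) * υ ≤ X.q := by
      have := E.sd.ba
      linarith [E.sd.bq, E.sd.ty]
    have h5 : M * J ≤ (X.q + s * X.φ) * J := by
      have h6 : (A : ℝ) * υ * J ≤ X.q * J := mul_le_mul_of_nonneg_right h4 hJ0.le
      have h7 : -(s * X.φ) * J ≤ (s * (w j - b) + μ + j * υ) * J :=
        mul_le_mul_of_nonneg_right w4'.1 hJ0.le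
      have h8 : (0 : ℝ) ≤ t := Nat.cast_nonneg t
      push_cast at hM
      nlinarith
    have h6 := le_of_mul_le_mul_right h5 hJ0
    have h7 : s * X.φ ≤ X.q := by
      have h8 : s * X.φ ≤ s * (e * X.q) := mul_le_mul_of_nonneg_left hφe (by linarith)
      have h9 : e * s * X.q ≤ 1 * X.q := mul_le_mul_of_nonneg_right E.es hq0.le
      linarith
    have h8 : 2 * X.q ≤ Λ * X.q := mul_le_mul_of_nonneg_right (by linarith [E.Λ1, E.T0]) hq0.le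
    linarith
  · intro l
    have h1 := win_u E.sd E.ok hΛ1 E.nm w1 w2 w3 hi l
    have e1 : (g l : ℝ) - (i * (r * u) + t : ℕ) - (X.sn (1 + l) (w j) + M) * J =
        (g l : ℝ) - j * u - (X.sn (1 + l) (w j) - (s * (w j - b) + μ + j * υ)) * J := by
      rw [add_mul, hM]
      have : (j : ℝ) = (i + 1) * r := by
        rw [hj]
        push_cast
        ring
      rw [this]
      push_cast
      ring
    rw [e1]
    have h2 : 4 * X.φ * J ≤ 4 * (e * X.q) * J :=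
      mul_le_mul_of_nonneg_right (by linarith) hJ0.le
    linarith [E.JA]

/-- **One image of all blocks.** -/
theorem fi1_sys (E : SyE X s hr T N₀ Λ e κ₀ μ υ b y₀ ϖ h η L A F B Fr e₀ k u g w) {w₂ : ℝ}
    {z : F.Ω → Fin 3 → ℤ}
    (hz : ∀ ω, B ω → ∀ i, |(z ω i : ℝ) - 2 ^ g i * fX F X.c (lw X J) Fr ω i| ≤ 2) (r t : ℕ) :
    FI1A (lq F B) (slam F ⌊y₀ * J⌋₊) (lFp F B w₂) z (lYb X T F B k y₀) (r * u) (A / r) t
      (((r * u : ℕ) - (t : ℝ)) * Real.log 2 - η * u) ϖ := by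
  intro j kL kP ka E' c1 c2 c3 i hi G g1 g2 g3
  obtain ⟨e1, e2, e3⟩ := sub_law F.isLaw E.pos g2 g3
  show _ ≤ CH (Pool.Agent.H49.Ent.cond (Pool.Agent.H49.Ent.cond F.p B True) G True) _ _
  rw [e1]
  obtain ⟨G', hG'⟩ : ∃ G' : F.Ω → Prop, G' = fun ω => (B ω ∧ G ω) ∧ 0 < F.p ω := ⟨_, rfl⟩
  rw [← hG'] at e2 e3 ⊢
  have hGB : Sub G' B := fun ω hω => by
    rw [hG'] at hω
    exact hω.1.1
  have hk : ∀ ω, G' ω → kL (slam F ⌊y₀ * J⌋₊ ω) = kP (lFp F B w₂ ω) := fun ω hω => by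
    rw [hG'] at hω
    exact c3 ω ((cond_pos_iff F.isLaw.nonneg B True ω).2 ⟨hω.2, eq_true hω.1.1⟩) (g1 ω hω.1.2)
  have hi' : (i + 1) * r ≤ A := Nat.mul_le_of_le_div _ _ _ (Nat.succ_le_of_lt (Finset.mem_range.1 hi))
  obtain ⟨w1, w2, w3, w4⟩ := E.wn _ hi'
  have hJ0 : (0 : ℝ) < J := by exact_mod_cast E.J0
  obtain ⟨M, hMe⟩ : ∃ M : ℝ, M = ((r * u : ℕ) - (t : ℝ)) / J -
    (s * (w ((i + 1) * r) - b) + μ + ((i + 1) * r : ℕ) * υ) := ⟨_, rfl⟩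
  have hM : M * J = (r * u : ℕ) - t -
      (s * (w ((i + 1) * r) - b) + μ + ((i + 1) * r : ℕ) * υ) * J := by
    rw [hMe, sub_mul, div_mul_cancel₀ _ hJ0.ne']
  obtain ⟨m1, m2⟩ := E.geo hi' hM
  obtain ⟨U, qp, q', D⟩ := blkD_of E.sd E.ok E.e1 E.T0 E.Λ1 E.μ0 E.nm w1 w2 w3 hi' w4 E.fr
    (E.lb _ hi') E.off E.h6 hGB e3 hz (w₂ := w₂) (x := r * u) (i := i) (by ring)
  obtain ⟨I1, -⟩ := E.im _ hi' G' hGB e2 g (i * (r * u) + t) M m1 m2
  refine le_trans ?_ (blk1_ev D I1 c1 c2 hk)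
  have h1 := E.ls
  have h2 := log_100
  have w5 := (abs_le.1 w4).2
  have hl2 : 0 < Real.log 2 := Real.log_pos (by norm_num)
  have h3 : (M - imC * (e * X.q) - h) * Real.log 2 * J =
      ((r * u : ℕ) - (t : ℝ)) * Real.log 2 - (s * (w ((i + 1) * r) - b) + μ +
        ((i + 1) * r : ℕ) * υ) * (Real.log 2 * J) - (imC * (e * X.q) + h) * (Real.log 2 * J) := by
    linear_combination Real.log 2 * hM
  have h4 := mul_le_mul_of_nonneg_right w5 (mul_nonneg hl2.le hJ0.le)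
  have h5 : 0 ≤ s * X.φ * (Real.log 2 * J) :=
    mul_nonneg (mul_nonneg (by linarith [E.sd.s1]) E.ok.box.lad.φ0.le) (mul_nonneg hl2.le hJ0.le)
  rw [h3]
  linarith

/-- **The pair of images of all blocks.** -/
theorem fi2_sys (E : SyE X s hr T N₀ Λ e κ₀ μ υ b y₀ ϖ h η L A F B Fr e₀ k u g w) {w₂ : ℝ}
    {z : F.Ω → Fin 3 → ℤ}
    (hz : ∀ ω, B ω → ∀ i, |(z ω i : ℝ) - 2 ^ g i * fX F X.c (lw X J) Fr ω i| ≤ 2) (r : ℕ) :
    FI2A (lq F B) (slam F ⌊y₀ * J⌋₊) (lFp F B w₂) z (lYb X T F B k y₀) (r * u) (A / r) 0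
      (2 * (r * u : ℕ) * Real.log 2 - η * u) ϖ := by
  intro j kL kP ka E' c1 c2 c3 i hi G g1 g2 g3
  obtain ⟨e1, e2, e3⟩ := sub_law F.isLaw E.pos g2 g3
  show _ ≤ CH (Pool.Agent.H49.Ent.cond (Pool.Agent.H49.Ent.cond F.p B True) G True) _ _
  rw [e1]
  obtain ⟨G', hG'⟩ : ∃ G' : F.Ω → Prop, G' = fun ω => (B ω ∧ G ω) ∧ 0 < F.p ω := ⟨_, rfl⟩
  rw [← hG'] at e2 e3 ⊢
  have hGB : Sub G' B := fun ω hω => by
    rw [hG'] at hω
    exact hω.1.1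
  have hk : ∀ ω, G' ω → kL (slam F ⌊y₀ * J⌋₊ ω) = kP (lFp F B w₂ ω) := fun ω hω => by
    rw [hG'] at hω
    exact c3 ω ((cond_pos_iff F.isLaw.nonneg B True ω).2 ⟨hω.2, eq_true hω.1.1⟩) (g1 ω hω.1.2)
  have hi' : (i + 1) * r ≤ A := Nat.mul_le_of_le_div _ _ _ (Nat.succ_le_of_lt (Finset.mem_range.1 hi))
  obtain ⟨w1, w2, w3, w4⟩ := E.wn _ hi'
  have hJ0 : (0 : ℝ) < J := by exact_mod_cast E.J0
  obtain ⟨M, hMe⟩ : ∃ M : ℝ, M = ((r * u : ℕ) - ((0 : ℕ) : ℝ)) / J -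
    (s * (w ((i + 1) * r) - b) + μ + ((i + 1) * r : ℕ) * υ) := ⟨_, rfl⟩
  have hM : M * J = (r * u : ℕ) - ((0 : ℕ) : ℝ) -
      (s * (w ((i + 1) * r) - b) + μ + ((i + 1) * r : ℕ) * υ) * J := by
    rw [hMe, sub_mul, div_mul_cancel₀ _ hJ0.ne']
  obtain ⟨m1, m2⟩ := E.geo hi' hM
  obtain ⟨U, qp, q', D⟩ := blkD_of E.sd E.ok E.e1 E.T0 E.Λ1 E.μ0 E.nm w1 w2 w3 hi' w4 E.fr
    (E.lb _ hi') E.off E.h6 hGB e3 hz (w₂ := w₂) (x := r * u) (i := i) (by ring)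
  obtain ⟨-, I2⟩ := E.im _ hi' G' hGB e2 g (i * (r * u) + 0) M m1 m2
  refine le_trans ?_ (blk2_ev (j := j) D I2 c2 hk)
  have h1 := E.ls
  have h2 := log_33
  have w5 := (abs_le.1 w4).2
  have hl2 : 0 < Real.log 2 := Real.log_pos (by norm_num)
  rw [Nat.cast_zero, sub_zero] at hM
  have h3 : (2 * M - imC * (e * X.q) - h) * Real.log 2 * J =
      2 * (r * u : ℕ) * Real.log 2 - 2 * ((s * (w ((i + 1) * r) - b) + μ +
        ((i + 1) * r : ℕ) * υ) * (Real.log 2 * J)) -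
          (imC * (e * X.q) + h) * (Real.log 2 * J) := by
    linear_combination 2 * Real.log 2 * hM
  have h4 := mul_le_mul_of_nonneg_right w5 (mul_nonneg hl2.le hJ0.le)
  rw [h3]
  linarith

end

end Pool.T4I
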