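import Pool.Agent.H4.T4.Pch
import Pool.Agent.H55.T4.Pcr
import Pool.Agent.H43.T4.Stm

/-!
# The dichotomy for the numbers of the velocities

`t4cls`: `T4ClsStmt`, from the rows, the images and the other pieces.
-/

set_option autoImplicit false

namespace Pool.T4I

/-- **The dichotomy for the numbers of the velocities.** -/
theorem t4cls : Pool.T4N.T4ClsStmt := Pool.T4J.t4cls_rm (Pool.T4R55.st_R _) stM

end Pool.T4I
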